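import Mathlib.Combinatorics.HalesJewett
import Mathlib.Order.BooleanAlgebra.Set
import Mathlib.Data.Set.Lattice
import Mathlib.Data.Fintype.Powerset
import Mathlib.Data.Fintype.Option
import Mathlib.Data.Fintype.Sum
import Mathlib.Data.Fintype.Pi

set_option autoImplicit false

namespace Pool.Agent.H57.Lonc

open Combinatorics

/-- The tile system on a bounded poset `S`. -/
structure Base (P S : Type) [PartialOrder P] [PartialOrder S] [BoundedOrder S] where
  τ : Type
  sig : τ → Option P
  side : τ → Bool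
  tile : τ → P → S
  f : S → Option P → Bool → τ
  emb : ∀ t a b, tile t a ≤ tile t b ↔ a ≤ b
  inj : ∀ t t' a b, tile t a = tile t' b → t = t' ∧ a = b
  ne_bot : ∀ t a, tile t a ≠ ⊥
  ne_top : ∀ t a, tile t a ≠ ⊤
  sig_f : ∀ θ σ b, sig (f θ σ b) = σ
  side_f : ∀ θ σ b, side (f θ σ b) = b
  room : ∀ θ, (∀ σ a, θ ≤ tile (f θ σ true) a) ∨ (∀ σ a, tile (f θ σ false) a ≤ θ)

/-- The dual tile system. -/
def Base.dual {P S : Type} [PartialOrder P] [PartialOrder S] [BoundedOrder S] (B : Base P S) :
    Base Pᵒᵈ Sᵒᵈ where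
  τ := B.τ
  sig := B.sig
  side := fun t => !(B.side t)
  tile := B.tile
  f := fun θ σ b => B.f θ σ (!b)
  emb := fun t a b => B.emb t b a
  inj := B.inj
  ne_bot := B.ne_top
  ne_top := B.ne_bot
  sig_f := fun θ σ b => B.sig_f θ σ (!b)
  side_f := fun θ σ b => by
    simp [B.side_f]
  room := fun θ => by
    rcases B.room θ with h | h
    · right
      exact h
    · left
      exact h

section lines

variable {Λ ι : Type}

theorem line_eq (l l' : Line Λ ι) (a b a' b' : Λ) (hab : a ≠ b)
    (h1 : l a = l' a') (h2 : l b = l' b') : l = l' ∧ a = a' ∧ b = b' := by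
  obtain ⟨i0, hi0⟩ := l.proper
  have key : ∀ i, l.idxFun i = l'.idxFun i := by
    intro i
    have e1 := congrFun h1 i
    have e2 := congrFun h2 i
    have hab' : a' ≠ b' := by
      intro h
      subst h
      have := h1.trans h2.symm
      have := congrFun this i0
      simp [Line.apply_def, hi0] at this
      exact hab this
    simp only [Line.apply_def] at e1 e2
    cases hl : l.idxFun i <;> cases hl' : l'.idxFun i <;> simp_all
  have hl : l = l' := by
    cases l
    cases l'
    congr
    funext i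
    exact key i
  subst hl
  refine ⟨rfl, ?_, ?_⟩
  · have := congrFun h1 i0
    simpa [Line.apply_def, hi0] using this
  · have := congrFun h2 i0
    simpa [Line.apply_def, hi0] using this

theorem line_inj (l : Line Λ ι) (a b : Λ) (h : l a = l b) : a = b := by
  obtain ⟨i0, hi0⟩ := l.proper
  have := congrFun h i0
  simpa [Line.apply_def, hi0] using this

end lines

section concrete

variable (P : Type) [PartialOrder P] (ι : Type)

/-- points of the ground set -/
abbrev Pt := Option (ι → (P ⊕ Option P))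

variable {P ι}

/-- the letters used by the low tile -/
def lowL (σ : Option P) (z : P) : Set (P ⊕ Option P) :=
  {x | x = Sum.inr σ ∨ ∃ y, y ≤ z ∧ x = Sum.inl y}

/-- the letters used by the high tile -/
def highL (σ : Option P) (z : P) : Set (P ⊕ Option P) :=
  {x | x = Sum.inr σ ∨ ∃ y, z ≤ y ∧ x = Sum.inl y}

/-- image of a set of letters on a line -/
def img (l : Line (P ⊕ Option P) ι) (U : Set (P ⊕ Option P)) : Set (Pt P ι) :=
  {x | ∃ u ∈ U, x = some (l u)}

/-- concrete tile -/
def ctile (t : Bool × Line (P ⊕ Option P) ι × Option P) (z : P) : Set (Pt P ι) :=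
  match t.1 with
  | false => img t.2.1 (lowL t.2.2 z)
  | true => (img t.2.1 (highL t.2.2 z))ᶜ

theorem img_subset (l : Line (P ⊕ Option P) ι) (U V : Set (P ⊕ Option P)) :
    img l U ⊆ img l V ↔ U ⊆ V := by
  constructor
  · intro h u hu
    obtain ⟨v, hv, e⟩ := h ⟨u, hu, rfl⟩
    have := line_inj l u v (Option.some.inj e)
    rw [this]
    exact hv
  · rintro h x ⟨u, hu, rfl⟩
    exact ⟨u, h hu, rfl⟩

theorem img_eq_of (l l' : Line (P ⊕ Option P) ι) (U V : Set (P ⊕ Option P)) (a b : P ⊕ Option P)
    (hab : a ≠ b) (ha : a ∈ U) (hb : b ∈ U) (h : img l U = img l' V) : l = l' ∧ U = V := by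
  have h1 : (some (l a) : Pt P ι) ∈ img l' V := by
    rw [← h]; exact ⟨a, ha, rfl⟩
  have h2 : (some (l b) : Pt P ι) ∈ img l' V := by
    rw [← h]; exact ⟨b, hb, rfl⟩
  obtain ⟨a', ha', e1⟩ := h1
  obtain ⟨b', hb', e2⟩ := h2
  obtain ⟨hl, -, -⟩ := line_eq l l' a b a' b' hab (Option.some.inj e1) (Option.some.inj e2)
  subst hl
  refine ⟨rfl, ?_⟩
  apply le_antisymm
  · exact (img_subset l U V).1 h.le
  · exact (img_subset l V U).1 h.ge

theorem lowL_sub (σ : Option P) (a b : P) : lowL σ a ⊆ lowL σ b ↔ a ≤ b := by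
  constructor
  · intro h
    have : (Sum.inl a : P ⊕ Option P) ∈ lowL σ b := h (Or.inr ⟨a, le_rfl, rfl⟩)
    rcases this with h | ⟨y, hy, e⟩
    · cases h
    · cases e
      exact hy
  · rintro h x (hx | ⟨y, hy, e⟩)
    · exact Or.inl hx
    · exact Or.inr ⟨y, hy.trans h, e⟩

theorem highL_sub (σ : Option P) (a b : P) : highL σ a ⊆ highL σ b ↔ b ≤ a := by
  constructor
  · intro h
    have : (Sum.inl a : P ⊕ Option P) ∈ highL σ b := h (Or.inr ⟨a, le_rfl, rfl⟩)
    rcases this with h | ⟨y, hy, e⟩
    · cases h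
    · cases e
      exact hy
  · rintro h x (hx | ⟨y, hy, e⟩)
    · exact Or.inl hx
    · exact Or.inr ⟨y, h.trans hy, e⟩

theorem lowL_sig (σ σ' : Option P) (a b : P) (h : lowL σ a = lowL σ' b) : σ = σ' := by
  have : (Sum.inr σ : P ⊕ Option P) ∈ lowL σ' b := by
    rw [← h]; exact Or.inl rfl
  rcases this with h | ⟨y, hy, e⟩
  · exact Sum.inr.inj h
  · cases e

theorem highL_sig (σ σ' : Option P) (a b : P) (h : highL σ a = highL σ' b) : σ = σ' := by
  have : (Sum.inr σ : P ⊕ Option P) ∈ highL σ' b := by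
    rw [← h]; exact Or.inl rfl
  rcases this with h | ⟨y, hy, e⟩
  · exact Sum.inr.inj h
  · cases e

theorem ctile_emb (t : Bool × Line (P ⊕ Option P) ι × Option P) (a b : P) :
    ctile t a ≤ ctile t b ↔ a ≤ b := by
  obtain ⟨s, l, σ⟩ := t
  cases s
  · simp only [ctile]
    exact (img_subset _ _ _).trans (lowL_sub _ _ _)
  · simp only [ctile]
    exact (Set.compl_subset_compl).trans ((img_subset _ _ _).trans (highL_sub _ _ _))

theorem none_notMem_img (l : Line (P ⊕ Option P) ι) (U : Set (P ⊕ Option P)) :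
    (none : Pt P ι) ∉ img l U := by
  rintro ⟨u, -, h⟩
  cases h

theorem ctile_inj (t t' : Bool × Line (P ⊕ Option P) ι × Option P) (a b : P)
    (h : ctile t a = ctile t' b) : t = t' ∧ a = b := by
  have h0 := h
  obtain ⟨s, l, σ⟩ := t
  obtain ⟨s', l', σ'⟩ := t'
  cases s <;> cases s' <;> simp only [ctile] at h
  · obtain ⟨hl, hU⟩ := img_eq_of l l' _ _ (Sum.inr σ) (Sum.inl a) (by simp) (Or.inl rfl)
      (Or.inr ⟨a, le_rfl, rfl⟩) h
    subst hl
    have := lowL_sig _ _ _ _ hU
    subst this
    refine ⟨rfl, ?_⟩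
    apply le_antisymm
    · exact (ctile_emb _ _ _).1 h0.le
    · exact (ctile_emb _ _ _).1 h0.ge
  · exfalso
    have : (none : Pt P ι) ∈ img l (lowL σ a) := by
      rw [h]
      exact none_notMem_img _ _
    exact none_notMem_img _ _ this
  · exfalso
    have : (none : Pt P ι) ∈ img l' (lowL σ' b) := by
      rw [← h]
      exact none_notMem_img _ _
    exact none_notMem_img _ _ this
  · have h' := compl_injective h
    obtain ⟨hl, hU⟩ := img_eq_of l l' _ _ (Sum.inr σ) (Sum.inl a) (by simp) (Or.inl rfl)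
      (Or.inr ⟨a, le_rfl, rfl⟩) h'
    subst hl
    have := highL_sig _ _ _ _ hU
    subst this
    refine ⟨rfl, ?_⟩
    apply le_antisymm
    · exact (ctile_emb _ _ _).1 h0.le
    · exact (ctile_emb _ _ _).1 h0.ge

theorem ctile_ne_bot (t : Bool × Line (P ⊕ Option P) ι × Option P) (a : P) :
    ctile t a ≠ ⊥ := by
  obtain ⟨s, l, σ⟩ := t
  cases s <;> simp only [ctile]
  · intro h
    have : (some (l (Sum.inr σ)) : Pt P ι) ∈ img l (lowL σ a) := ⟨_, Or.inl rfl, rfl⟩
    rw [h] at this
    exact this
  · intro h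
    have : (none : Pt P ι) ∈ (img l (highL σ a))ᶜ := none_notMem_img _ _
    rw [h] at this
    exact this

theorem ctile_ne_top (t : Bool × Line (P ⊕ Option P) ι × Option P) (a : P) :
    ctile t a ≠ ⊤ := by
  obtain ⟨s, l, σ⟩ := t
  cases s <;> simp only [ctile]
  · intro h
    have : (none : Pt P ι) ∈ img l (lowL σ a) := by
      rw [h]; trivial
    exact none_notMem_img _ _ this
  · intro h
    have : (some (l (Sum.inr σ)) : Pt P ι) ∈ (img l (highL σ a))ᶜ := by
      rw [h]; trivial
    exact this ⟨_, Or.inl rfl, rfl⟩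

/-- Existence of a tile system on a finite power set. -/
theorem exists_base (P : Type) [Fintype P] [PartialOrder P] :
    ∃ (X : Type) (_ : Fintype X), Nonempty (Base P (Set X)) := by
  classical
  obtain ⟨ι, hι, H⟩ := Combinatorics.Line.exists_mono_in_high_dimension (P ⊕ Option P) Bool
  refine ⟨Pt P ι, inferInstance, ⟨?_⟩⟩
  have H' : ∀ θ : Set (Pt P ι), ∃ l : Line (P ⊕ Option P) ι,
      (∀ x, some (l x) ∈ θ) ∨ (∀ x, some (l x) ∉ θ) := by
    intro θ
    obtain ⟨l, c, hc⟩ := H (fun v => decide (some v ∈ θ))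
    refine ⟨l, ?_⟩
    cases c
    · right
      intro x
      simpa using hc x
    · left
      intro x
      simpa using hc x
  choose F hF using H'
  exact
    { τ := Bool × Line (P ⊕ Option P) ι × Option P
      sig := fun t => t.2.2
      side := fun t => t.1
      tile := ctile
      f := fun θ σ b => (b, F θ, σ)
      emb := ctile_emb
      inj := ctile_inj
      ne_bot := ctile_ne_bot
      ne_top := ctile_ne_top
      sig_f := fun _ _ _ => rfl
      side_f := fun _ _ _ => rfl
      room := by
        intro θ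
        rcases hF θ with h | h
        · right
          intro σ a x hx
          simp only [ctile] at hx
          obtain ⟨u, -, rfl⟩ := hx
          exact h u
        · left
          intro σ a x hx
          simp only [ctile]
          rintro ⟨u, -, rfl⟩
          exact h u hx }

end concrete

end Pool.Agent.H57.Lonc
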