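import Pool.Agent.H57.Lonc.Product
import Mathlib.Data.Nat.Choose.Bounds
import Mathlib.Data.Fintype.Powerset
import Mathlib.Tactic.Ring
import Mathlib.Tactic.Linarith

set_option autoImplicit false

namespace Pool.Agent.H57.Lonc

/-- numerical estimate -/
theorem numeric (a p s d : ℕ) :
    ∃ E0, ∀ E, E0 ≤ E → 0 < E ∧ ∃ R M, d + 2 * (p + R) ≤ E ∧
      (∀ a', a' ≤ a → a' * ((E * s) ^ (d + p) * s ^ (p * M + 1)) ≤ Nat.choose (R - p * M) M) ∧
      0 < Nat.choose (R - p * M) M := by
  set q := d + p with hq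
  set M := q + 1 with hM
  set C := a * s ^ q * s ^ (p * M + 1) with hC
  refine ⟨4 ^ M * (M.factorial * C) + 2 * (2 * p + 2 * M + 2 * (p * M) + d) + 1, ?_⟩
  intro E hE
  have hE0 : 0 < E := by omega
  refine ⟨hE0, E / 4 + M + p * M, M, ?_, ?_, ?_⟩
  · have h1 : 4 * (E / 4) ≤ E := Nat.mul_div_le E 4
    have h2 : 2 * (2 * p + 2 * M + 2 * (p * M) + d) ≤ E := by
      have : 0 ≤ 4 ^ M * (M.factorial * C) := Nat.zero_le _
      omega
    have h3 : 2 * (p + (E / 4 + M + p * M)) = 2 * (E / 4) + 2 * p + 2 * M + 2 * (p * M) := by ring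
    rw [h3]
    omega
  · intro a' ha'
    have e0 : E / 4 + M + p * M - p * M = E / 4 + M := by omega
    rw [e0]
    have h1 : (E / 4 + M + 1 - M) ^ M ≤ (E / 4 + M).descFactorial M :=
      Nat.pow_sub_le_descFactorial _ _
    have h2 : E / 4 + M + 1 - M = E / 4 + 1 := by omega
    rw [h2, Nat.descFactorial_eq_factorial_mul_choose] at h1
    have h3 : E ≤ 4 * (E / 4 + 1) := by omega
    have h4 : E ^ M ≤ 4 ^ M * (M.factorial * (E / 4 + M).choose M) := by
      calc E ^ M ≤ (4 * (E / 4 + 1)) ^ M := Nat.pow_le_pow_left h3 M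
        _ = 4 ^ M * (E / 4 + 1) ^ M := by rw [Nat.mul_pow]
        _ ≤ _ := Nat.mul_le_mul_left _ h1
    have h5 : a' * ((E * s) ^ q * s ^ (p * M + 1)) ≤ C * E ^ q := by
      calc a' * ((E * s) ^ q * s ^ (p * M + 1)) ≤ a * ((E * s) ^ q * s ^ (p * M + 1)) :=
            Nat.mul_le_mul_right _ ha'
        _ = C * E ^ q := by
            rw [Nat.mul_pow, hC]
            ring
    refine h5.trans ?_
    by_contra hcon
    rw [not_le] at hcon
    have h6 : E ^ M < 4 ^ M * (M.factorial * C) * E ^ q := by
      refine lt_of_le_of_lt h4 ?_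
      have h7 : M.factorial * (E / 4 + M).choose M < M.factorial * (C * E ^ q) :=
        Nat.mul_lt_mul_of_pos_left hcon (Nat.factorial_pos M)
      calc 4 ^ M * (M.factorial * (E / 4 + M).choose M) < 4 ^ M * (M.factorial * (C * E ^ q)) :=
            Nat.mul_lt_mul_of_pos_left h7 (by positivity)
        _ = 4 ^ M * (M.factorial * C) * E ^ q := by ring
    have h8 : E ^ M = E * E ^ q := by
      rw [hM, pow_succ]
      ring
    rw [h8] at h6
    have h9 : E < 4 ^ M * (M.factorial * C) := Nat.lt_of_mul_lt_mul_right h6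
    omega
  · apply Nat.choose_pos
    omega

/-- The coordinates as a power set. -/
noncomputable def isoAux (X : Type) (r E n : ℕ) (φ : Fin n ≃ Fin r ⊕ (Fin E × X)) :
    (Set (Fin r) × (Fin E → Set X)) ≃o Set (Fin n) where
  toFun x := {k | (φ k).elim (fun i => i ∈ x.1) (fun u => u.2 ∈ x.2 u.1)}
  invFun s := ({i | φ.symm (Sum.inl i) ∈ s}, fun y => {u | φ.symm (Sum.inr (y, u)) ∈ s})
  left_inv := by
    rintro ⟨a, c⟩
    refine Prod.ext ?_ ?_
    · ext i
      simp
    · funext y
      ext u
      simp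
  right_inv := by
    intro s
    ext k
    simp only [Set.mem_setOf_eq]
    rcases h : φ k with i | ⟨y, u⟩
    · simp only [Sum.elim_inl]
      rw [← h, Equiv.symm_apply_apply]
    · simp only [Sum.elim_inr]
      rw [← h, Equiv.symm_apply_apply]
  map_rel_iff' := by
    rintro ⟨a, c⟩ ⟨a', c'⟩
    simp only [Equiv.coe_fn_mk, Prod.mk_le_mk]
    constructor
    · intro h
      constructor
      · intro i hi
        have := @h (φ.symm (Sum.inl i)) (by simpa using hi)
        simpa using this
      · intro y u hu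
        have := @h (φ.symm (Sum.inr (y, u))) (by simpa using hu)
        simpa using this
    · rintro ⟨h1, h2⟩ k hk
      simp only [Set.mem_setOf_eq] at hk ⊢
      rcases h : φ k with i | ⟨y, u⟩
      · rw [h] at hk
        exact h1 hk
      · rw [h] at hk
        exact h2 y hk

theorem main_theorem (α : Type) [Fintype α] [PartialOrder α] :
      ∃ N : ℕ, ∀ n : ℕ, N ≤ n → Fintype.card α ∣ 2 ^ n - 2 →
        ∃ (k : ℕ) (e : Fin k → α → Finset (Fin n)),
          (∀ (i : Fin k) (a b : α), e i a ≤ e i b ↔ a ≤ b) ∧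
          (∀ (i : Fin k) (a : α), e i a ≠ ∅ ∧ e i a ≠ Finset.univ) ∧
          (∀ s : Finset (Fin n), s ≠ ∅ → s ≠ Finset.univ →
            ∃! p : Fin k × α, e p.1 p.2 = s) := by
  classical
  rcases isEmpty_or_nonempty α with hα | hα
  · refine ⟨2, ?_⟩
    intro n hn hd
    exfalso
    rw [Fintype.card_eq_zero, zero_dvd_iff] at hd
    have h1 : 2 ^ 2 ≤ 2 ^ n := Nat.pow_le_pow_right (by norm_num) hn
    omega
  · obtain ⟨X, hX, ⟨B⟩⟩ := exists_base α
    have hXne : Nonempty X := by
      by_contra hcon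
      rw [not_nonempty_iff] at hcon
      obtain ⟨p0⟩ := hα
      apply B.ne_bot (B.f ⊥ none true) p0
      exact Subsingleton.elim _ _
    set m := Fintype.card X with hm
    have hmpos : 0 < m := Fintype.card_pos_iff.2 hXne
    obtain ⟨E0, hE0⟩ := numeric (2 ^ m) (Fintype.card α) (Fintype.card (Set X))
      (4 * Fintype.card α + 2)
    refine ⟨m * E0, ?_⟩
    intro n hn hdvd
    set E := n / m with hE
    set r := n % m with hr
    have hnE : r + E * m = n := by
      rw [hr, hE, Nat.mul_comm]
      exact Nat.mod_add_div n m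
    have hEE : E0 ≤ E := by
      rw [hE, Nat.le_div_iff_mul_le hmpos, Nat.mul_comm]
      exact hn
    obtain ⟨hEpos, R, M, h1, h2, h3⟩ := hE0 E hEE
    have hcardΩ : Fintype.card (Set (Fin r) × (Fin E → Set X)) = 2 ^ n := by
      rw [Fintype.card_prod, Fintype.card_fun, Fintype.card_set, Fintype.card_set,
        Fintype.card_fin, Fintype.card_fin, ← hm, ← pow_mul, ← pow_add]
      congr 1
      rw [← hnE]
      ring
    have hA : Fintype.card (Set (Fin r)) ≤ 2 ^ m := by
      rw [Fintype.card_set, Fintype.card_fin]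
      exact Nat.pow_le_pow_right (by norm_num) (Nat.mod_lt n hmpos).le
    obtain ⟨J, e, k1, k2, k3⟩ := tiled_product (A := Set (Fin r)) B E hEpos
      (by rw [hcardΩ]; exact hdvd) R M h1 (h2 _ hA) h3
    have hcφ : Fintype.card (Fin n) = Fintype.card (Fin r ⊕ (Fin E × X)) := by
      rw [Fintype.card_sum, Fintype.card_prod, Fintype.card_fin, Fintype.card_fin,
        Fintype.card_fin, ← hm]
      exact hnE.symm
    let φ : Fin n ≃ Fin r ⊕ (Fin E × X) := Fintype.equivOfCardEq hcφ
    let Φ : (Set (Fin r) × (Fin E → Set X)) ≃o Set (Fin n) := isoAux X r E n φ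
    let Ψ : Set (Fin n) ≃o Finset (Fin n) := (Fintype.finsetOrderIsoSet).symm
    let Θ := Φ.trans Ψ
    obtain ⟨p0⟩ := hα
    have hJ : Finite J := by
      apply Finite.of_injective (fun j : J => e j p0)
      intro j j' h
      have h4 := k2 j p0
      have h5 := (k3 (e j p0) h4.1 h4.2).unique (y₁ := (j, p0)) (y₂ := (j', p0)) rfl h.symm
      exact (Prod.mk.inj h5).1
    obtain ⟨k, ⟨ε⟩⟩ := Finite.exists_equiv_fin J
    refine ⟨k, fun i a => Θ (e (ε.symm i) a), ?_, ?_, ?_⟩
    · intro i a b
      rw [Θ.le_iff_le]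
      exact k1 _ a b
    · intro i a
      constructor
      · intro h
        apply (k2 (ε.symm i) a).1
        apply Θ.injective
        rw [Θ.map_bot]
        exact h
      · intro h
        apply (k2 (ε.symm i) a).2
        apply Θ.injective
        rw [Θ.map_top]
        exact h
    · intro s hs1 hs2
      obtain ⟨⟨j, a⟩, h4, h5⟩ := k3 (Θ.symm s)
        (by
          intro h
          apply hs1
          have := congrArg Θ h
          rw [Θ.apply_symm_apply, Θ.map_bot] at this
          exact this)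
        (by
          intro h
          apply hs2
          have := congrArg Θ h
          rw [Θ.apply_symm_apply, Θ.map_top] at this
          exact this)
      refine ⟨(ε j, a), ?_, ?_⟩
      · simp only [Equiv.symm_apply_apply]
        simp only at h4
        rw [h4, Θ.apply_symm_apply]
      · rintro ⟨i, b⟩ h
        simp only at h
        have h6 := h5 (ε.symm i, b) (by
          simp only
          rw [← h, Θ.symm_apply_apply])
        obtain ⟨h7, h8⟩ := Prod.mk.inj h6
        rw [← h7, h8, Equiv.apply_symm_apply]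

end Pool.Agent.H57.Lonc
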