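import Mathlib.Combinatorics.Hall.Basic
import Mathlib.Combinatorics.Enumerative.DoubleCounting
import Mathlib.Data.Fintype.BigOperators
import Mathlib.Data.Fintype.Prod
import Mathlib.Data.Fintype.Pi

set_option autoImplicit false

namespace Pool.Agent.H57.Lonc

/-- Degree form of the marriage theorem. -/
theorem hall_deg {G B : Type} [Fintype G] [DecidableEq B] (t : G → Finset B) (d : ℕ) (hd : 0 < d)
    (h1 : ∀ g, d ≤ (t g).card)
    (h2 : ∀ b, (Finset.univ.filter (fun g => b ∈ t g)).card ≤ d) :
    ∃ f : G → B, Function.Injective f ∧ ∀ g, f g ∈ t g := by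
  classical
  rw [← Finset.all_card_le_biUnion_card_iff_exists_injective]
  intro s
  have key := Finset.card_mul_le_card_mul (s := s) (t := s.biUnion t) (fun g b => b ∈ t g)
    (m := d) (n := d) ?_ ?_
  · exact Nat.le_of_mul_le_mul_right key hd
  · intro g hg
    refine (h1 g).trans (Finset.card_le_card ?_)
    intro b hb
    simp only [Finset.bipartiteAbove, Finset.mem_filter, Finset.mem_biUnion]
    exact ⟨⟨g, hg, hb⟩, hb⟩
  · intro b hb
    refine le_trans (Finset.card_le_card ?_) (h2 b)
    intro g hg
    simp only [Finset.bipartiteBelow, Finset.mem_filter] at hg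
    simp only [Finset.mem_filter, Finset.mem_univ, true_and]
    exact hg.2

/-- Counting points of `A × (I → S)` agreeing with `v` outside `V` and a further set of size at most
`q`. -/
theorem ball_count {A I S : Type} [Fintype A] [Fintype I] [Fintype S] [DecidableEq I]
    (v : I → S) (V : Finset I) (q : ℕ) (i0 : I) (T : Finset (A × (I → S)))
    (hT : ∀ x ∈ T, ∃ Q : Finset I, Q.card ≤ q ∧ ∀ y, y ∉ Q → y ∉ V → x.2 y = v y) :
    T.card ≤ Fintype.card A * ((Fintype.card I * Fintype.card S) ^ q *
      (Fintype.card S) ^ V.card) := by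
  classical
  let F : A × (Fin q → I × S) × (V → S) → A × (I → S) := fun u =>
    (u.1, fun y => if h : ∃ i, (u.2.1 i).1 = y then (u.2.1 h.choose).2
      else if h' : y ∈ V then u.2.2 ⟨y, h'⟩ else v y)
  have hsub : T ⊆ Finset.univ.image F := by
    intro x hx
    obtain ⟨Q, hQ, hx2⟩ := hT x hx
    let en : Fin q → I := fun i =>
      if h : (i : ℕ) < Q.card then (Q.equivFin.symm ⟨i, h⟩ : I) else i0
    have hen : ∀ y ∈ Q, ∃ i, en i = y := by
      intro y hy
      have hlt : ((Q.equivFin ⟨y, hy⟩ : Fin Q.card) : ℕ) < Q.card := (Q.equivFin ⟨y, hy⟩).2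
      refine ⟨⟨Q.equivFin ⟨y, hy⟩, lt_of_lt_of_le hlt hQ⟩, ?_⟩
      simp only [en, hlt, dite_true]
      simp
    rw [Finset.mem_image]
    refine ⟨(x.1, fun i => (en i, x.2 (en i)), fun y => x.2 y), Finset.mem_univ _, ?_⟩
    refine Prod.ext rfl ?_
    funext y
    simp only [F]
    split_ifs with h h'
    · have := h.choose_spec
      rw [this]
    · rfl
    · symm
      apply hx2 y _ h'
      intro hy
      exact h (hen y hy)
  refine (Finset.card_le_card hsub).trans (Finset.card_image_le.trans ?_)
  rw [Finset.card_univ, Fintype.card_prod, Fintype.card_prod, Fintype.card_fun, Fintype.card_fun,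
    Fintype.card_prod]
  simp

end Pool.Agent.H57.Lonc
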