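import Pool.Agent.H57.Lonc.Base
import Pool.Agent.H57.Lonc.Hall
import Mathlib.Order.Interval.Finset.Nat

set_option autoImplicit false

namespace Pool.Agent.H57.Lonc

section defs

variable {P S A I : Type} [PartialOrder P] [PartialOrder S] [BoundedOrder S]
  [PartialOrder A] [BoundedOrder A] [DecidableEq I]

open Classical in
/-- context values for role `j` -/
noncomputable def ctx (B : Base P S) (z₁ : P) (w : I → S) (D : Finset I) (nN : P → I)
    (Y : P → Finset I) (j : P) (y : I) : S :=
  if y ∈ D then (if z₁ < j then ⊤ else ⊥)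
  else if ∃ k, k < j ∧ y = nN k then ⊤
  else if ∃ k, k ≤ j ∧ y ∈ Y k then B.tile (B.f (w y) none true) z₁
  else w y

open Classical in
/-- the line for role `j` -/
noncomputable def gln (A : Type) [PartialOrder A] [BoundedOrder A]
    (B : Base P S) (z₁ : P) (w : I → S) (D : Finset I) (nN : P → I)
    (Y : P → Finset I) (j z : P) : A × (I → S) :=
  (if z₁ < j then ⊤ else ⊥,
    Function.update (ctx B z₁ w D nN Y j) (nN j) (B.tile (B.f (w (nN j)) (some j) true) z))

/-- validity of the data of a gadget -/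
structure Good (B : Base P S) (w : I → S) (D : Finset I) (nN : P → I) (Y : P → Finset I) :
    Prop where
  hw : ∀ y, ∀ t z, w y ≠ B.tile t z
  inj : Function.Injective nN
  nD : ∀ k, nN k ∉ D
  nUp : ∀ k, ∀ σ a, w (nN k) ≤ B.tile (B.f (w (nN k)) σ true) a
  yD : ∀ k, ∀ y ∈ Y k, y ∉ D
  yN : ∀ k, ∀ y ∈ Y k, ∀ k', y ≠ nN k'
  yUp : ∀ k, ∀ y ∈ Y k, ∀ σ a, w y ≤ B.tile (B.f (w y) σ true) a

/-- `L` is a line of role `σ` and side `b` with a unique main coordinate. -/
def IsMain (B : Base P S) (σ : P) (b : Bool) (L : P → A × (I → S)) : Prop :=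
  ∃ (a : A) (c : I → S) (y : I) (t : B.τ),
    (∀ y', y' ≠ y → ∀ t' z, c y' = B.tile t' z → B.sig t' = none) ∧
    B.sig t = some σ ∧ B.side t = b ∧ ∀ z, L z = (a, Function.update c y (B.tile t z))

variable {B : Base P S} {z₁ : P} {w : I → S} {D : Finset I} {nN : P → I} {Y : P → Finset I}

theorem ctx_D (j : P) (y : I) (hy : y ∈ D) :
    ctx B z₁ w D nN Y j y = (open Classical in if z₁ < j then ⊤ else ⊥) := by
  simp [ctx, hy]

theorem ctx_nN (h : Good B w D nN Y) (j k : P) (hk : k < j) :
    ctx B z₁ w D nN Y j (nN k) = ⊤ := by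
  have h1 : ∃ k', k' < j ∧ nN k = nN k' := ⟨k, hk, rfl⟩
  simp only [ctx, h.nD k, if_false, h1, if_true]

theorem ctx_nN' (h : Good B w D nN Y) (j k : P) (hk : ¬ k < j) :
    ctx B z₁ w D nN Y j (nN k) = w (nN k) := by
  have h1 : ¬ ∃ k', k' < j ∧ nN k = nN k' := by
    rintro ⟨k', h1, h2⟩
    rw [← h.inj h2] at h1
    exact hk h1
  have h2 : ¬ ∃ k', k' ≤ j ∧ nN k ∈ Y k' := by
    rintro ⟨k', h1, h2⟩
    exact h.yN k' _ h2 k rfl
  simp only [ctx, h.nD k, if_false, h1, h2]

theorem gln_mono (h : Good B w D nN Y) (j j' z z' : P) (hj : j < j') :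
    gln A B z₁ w D nN Y j z ≤ gln A B z₁ w D nN Y j' z' := by
  classical
  rw [Prod.le_def]
  constructor
  · simp only [gln]
    split_ifs with h1 h2
    · exact le_rfl
    · exact absurd (h1.trans hj) h2
    · exact bot_le
    · exact le_rfl
  · simp only [gln]
    intro y
    by_cases hy : y = nN j
    · subst hy
      rw [Function.update_of_ne (fun e => hj.ne (h.inj e)), ctx_nN h j' j hj]
      exact le_top
    · by_cases hy' : y = nN j'
      · subst hy'
        rw [Function.update_of_ne hy, Function.update_self, ctx_nN' h j j' (not_lt_of_gt hj)]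
        exact h.nUp j' _ _
      · rw [Function.update_of_ne hy, Function.update_of_ne hy']
        simp only [ctx]
        by_cases hD : y ∈ D
        · simp only [hD, if_true]
          split_ifs with h1 h2
          · exact le_rfl
          · exact absurd (h1.trans hj) h2
          · exact bot_le
          · exact le_rfl
        · simp only [hD, if_false]
          by_cases h1 : ∃ k, k < j' ∧ y = nN k
          · rw [if_pos h1]
            exact le_top
          · have h1' : ¬ ∃ k, k < j ∧ y = nN k := by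
              rintro ⟨k, hk, e⟩
              exact h1 ⟨k, hk.trans hj, e⟩
            rw [if_neg h1, if_neg h1']
            by_cases h2 : ∃ k, k ≤ j ∧ y ∈ Y k
            · have h2' : ∃ k, k ≤ j' ∧ y ∈ Y k := by
                obtain ⟨k, hk, e⟩ := h2
                exact ⟨k, hk.trans hj.le, e⟩
              rw [if_pos h2, if_pos h2']
            · rw [if_neg h2]
              split_ifs with h3
              · obtain ⟨k, -, e⟩ := h3
                exact h.yUp k y e _ _
              · exact le_rfl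

theorem not_tile_le (h : Good B w D nN Y) (j z : P) (σ : Option P) :
    ¬ B.tile (B.f (w (nN j)) σ true) z ≤ w (nN j) := by
  intro hle
  exact h.hw (nN j) _ _ (le_antisymm (h.nUp j σ z) hle)

theorem gln_not_le (h : Good B w D nN Y) (j j' z z' : P) (hne : j ≠ j') (hj : ¬ j < j') :
    ¬ gln A B z₁ w D nN Y j z ≤ gln A B z₁ w D nN Y j' z' := by
  intro hle
  have h1 := (Prod.le_def.1 hle).2 (nN j)
  simp only [gln] at h1
  rw [Function.update_self, Function.update_of_ne (fun e => hne (h.inj e)), ctx_nN' h j' j hj] at h1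
  exact not_tile_le h _ _ _ h1

theorem mem_le_gln (h : Good B w D nN Y) (m : A × (I → S)) (hm : ∀ y, y ∉ D → m.2 y = w y)
    (j z : P) (hj : z₁ < j) : m ≤ gln A B z₁ w D nN Y j z := by
  classical
  rw [Prod.le_def]
  constructor
  · simp only [gln, if_pos hj]
    exact le_top
  · simp only [gln]
    intro y
    by_cases hy : y = nN j
    · subst hy
      rw [Function.update_self, hm _ (h.nD j)]
      exact h.nUp j _ _
    · rw [Function.update_of_ne hy]
      simp only [ctx]
      by_cases hD : y ∈ D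
      · simp only [hD, if_true, if_pos hj]
        exact le_top
      · rw [hm y hD]
        simp only [hD, if_false]
        split_ifs with h1 h2
        · exact le_top
        · obtain ⟨k, -, e⟩ := h2
          exact h.yUp k y e _ _
        · exact le_rfl

theorem not_mem_le_gln (h : Good B w D nN Y) (m : A × (I → S))
    (hm : m.1 ≠ ⊥ ∨ ∃ y ∈ D, m.2 y ≠ ⊥)
    (j z : P) (hj : ¬ z₁ < j) : ¬ m ≤ gln A B z₁ w D nN Y j z := by
  classical
  intro hle
  have h1 := (Prod.le_def.1 hle)
  simp only [gln, if_neg hj] at h1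
  rcases hm with hm | ⟨y, hy, hm⟩
  · exact hm (le_bot_iff.1 h1.1)
  · have h2 := h1.2 y
    have hne : y ≠ nN j := fun e => h.nD j (e ▸ hy)
    rw [Function.update_of_ne hne] at h2
    simp only [ctx, hy, if_true, if_neg hj] at h2
    exact hm (le_bot_iff.1 h2)

theorem not_gln_le_mem (h : Good B w D nN Y) (m : A × (I → S)) (hm : ∀ y, y ∉ D → m.2 y = w y)
    (j z : P) : ¬ gln A B z₁ w D nN Y j z ≤ m := by
  intro hle
  have h1 := (Prod.le_def.1 hle).2 (nN j)
  simp only [gln] at h1
  rw [Function.update_self, hm _ (h.nD j)] at h1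
  exact not_tile_le h _ _ _ h1

theorem gln_tile (h : Good B w D nN Y) (j z : P) (y : I) (t : B.τ) (z' : P)
    (e : (gln A B z₁ w D nN Y j z).2 y = B.tile t z') :
    y = nN j ∨ ((∃ k, k ≤ j ∧ y ∈ Y k) ∧ B.tile t z' = B.tile (B.f (w y) none true) z₁) := by
  classical
  by_cases hy : y = nN j
  · exact Or.inl hy
  · right
    simp only [gln] at e
    rw [Function.update_of_ne hy] at e
    simp only [ctx] at e
    split_ifs at e with h1 h2 h3 h4
    · exact absurd e.symm (B.ne_top _ _)
    · exact absurd e.symm (B.ne_bot _ _)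
    · exact absurd e.symm (B.ne_top _ _)
    · exact ⟨h4, e.symm⟩
    · exact absurd e (h.hw _ _ _)

theorem gln_isMain (h : Good B w D nN Y) (j : P) :
    IsMain B j true (gln A B z₁ w D nN Y j) := by
  classical
  refine ⟨if z₁ < j then ⊤ else ⊥, ctx B z₁ w D nN Y j, nN j, B.f (w (nN j)) (some j) true,
    ?_, B.sig_f _ _ _, B.side_f _ _ _, ?_⟩
  · intro y' hy' t' z e
    have e' : (gln A B z₁ w D nN Y j z).2 y' = B.tile t' z := by
      simp only [gln]
      rw [Function.update_of_ne hy']
      exact e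
    rcases gln_tile h j z y' t' z e' with h1 | ⟨-, h1⟩
    · exact absurd h1 hy'
    · rw [(B.inj _ _ _ _ h1).1, B.sig_f]
  · intro z
    rfl

theorem gln_congr (Y' : P → Finset I) (j : P) (hY : ∀ k, k ≤ j → Y k = Y' k) (z : P) :
    gln A B z₁ w D nN Y j z = gln A B z₁ w D nN Y' j z := by
  classical
  have : ctx B z₁ w D nN Y j = ctx B z₁ w D nN Y' j := by
    funext y
    simp only [ctx]
    have e : (∃ k, k ≤ j ∧ y ∈ Y k) ↔ (∃ k, k ≤ j ∧ y ∈ Y' k) := by
      constructor
      · rintro ⟨k, hk, hy⟩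
        exact ⟨k, hk, hY k hk ▸ hy⟩
      · rintro ⟨k, hk, hy⟩
        exact ⟨k, hk, (hY k hk).symm ▸ hy⟩
    simp only [e]
  simp only [gln, this]

theorem gln_Y_sub (Y' : P → Finset I) (h : Good B w D nN Y)
    (j z : P) (hY : ∀ k, k < j → Y k = Y' k)
    (hd : ∀ k, k < j → ∀ y ∈ Y j, y ∉ Y k)
    (e : gln A B z₁ w D nN Y j z = gln A B z₁ w D nN Y' j z) : Y j ⊆ Y' j := by
  classical
  intro y hy
  have e1 := congrFun (congrArg Prod.snd e) y
  simp only [gln] at e1
  rw [Function.update_of_ne (h.yN j y hy j), Function.update_of_ne (h.yN j y hy j)] at e1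
  have h1 : ¬ ∃ k, k < j ∧ y = nN k := by
    rintro ⟨k, -, hk⟩
    exact h.yN j y hy k hk
  have h2 : ∃ k, k ≤ j ∧ y ∈ Y k := ⟨j, le_rfl, hy⟩
  by_contra hcon
  have h3 : ¬ ∃ k, k ≤ j ∧ y ∈ Y' k := by
    rintro ⟨k, hk, hk2⟩
    rcases hk.lt_or_eq with h4 | h4
    · rw [← hY k h4] at hk2
      exact hd k h4 y hy hk2
    · rw [h4] at hk2
      exact hcon hk2
  simp only [ctx, h.yD j y hy, if_false, h1, h2, h3, if_true] at e1
  exact h.hw _ _ _ e1.symm

theorem gln_recover (h : Good B w D nN Y) (j z : P) (y : I)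
    (hy : y ∉ D) (hyn : ∀ k, y ≠ nN k)
    (hv : ∀ t z', (gln A B z₁ w D nN Y j z).2 y ≠ B.tile t z') :
    w y = (gln A B z₁ w D nN Y j z).2 y := by
  classical
  have h1 : ¬ ∃ k, k < j ∧ y = nN k := by
    rintro ⟨k, -, hk⟩
    exact hyn k hk
  simp only [gln] at hv ⊢
  rw [Function.update_of_ne (hyn j)] at hv ⊢
  simp only [ctx, hy, if_false, h1] at hv ⊢
  by_cases h2 : ∃ k, k ≤ j ∧ y ∈ Y k
  · rw [if_pos h2] at hv
    exact absurd rfl (hv _ _)
  · rw [if_neg h2]

end defs

end Pool.Agent.H57.Lonc
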