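import Mathlib.Data.List.Chain
import Mathlib.Data.List.Nodup
import Mathlib.Data.Fintype.Pi
import Mathlib.Data.Fintype.Prod
import Mathlib.Data.Fintype.BigOperators
import Mathlib.Data.Fin.Tuple.Basic
import Mathlib.Logic.Equiv.Fin.Basic
import Mathlib.Algebra.Order.BigOperators.Group.Finset

set_option autoImplicit false

namespace Pool.Agent.H57.Lonc

/-- the boustrophedon product list -/
def snake {α β : Type} : List α → List β → List (α × β)
  | _, [] => []
  | l, b :: m => l.map (fun a => (a, b)) ++ snake l.reverse m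

theorem mem_snake {α β : Type} (m : List β) : ∀ (l : List α) (x : α × β),
    x ∈ snake l m ↔ x.1 ∈ l ∧ x.2 ∈ m := by
  induction m with
  | nil => intro l x; simp [snake]
  | cons b m ih =>
    intro l x
    simp only [snake, List.mem_append, List.mem_map, ih, List.mem_reverse, List.mem_cons]
    constructor
    · rintro (⟨a, ha, rfl⟩ | ⟨h1, h2⟩)
      · exact ⟨ha, Or.inl rfl⟩
      · exact ⟨h1, Or.inr h2⟩
    · rintro ⟨h1, h2 | h2⟩
      · left
        exact ⟨x.1, h1, Prod.ext rfl h2.symm⟩
      · right
        exact ⟨h1, h2⟩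

theorem nodup_snake {α β : Type} (m : List β) (hm : m.Nodup) : ∀ (l : List α), l.Nodup →
    (snake l m).Nodup := by
  induction m with
  | nil => intro l _; simp [snake]
  | cons b m ih =>
    intro l hl
    simp only [snake]
    rw [List.nodup_append]
    refine ⟨?_, ih (List.nodup_cons.1 hm).2 _ (List.nodup_reverse.2 hl), ?_⟩
    · exact hl.map (fun a a' h => (Prod.mk.inj h).1)
    · intro x hx y hy e
      subst e
      rw [List.mem_map] at hx
      obtain ⟨a, -, rfl⟩ := hx
      rw [mem_snake] at hy
      exact (List.nodup_cons.1 hm).1 hy.2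

theorem isChain_snake {α β : Type} (R : α → α → Prop) (hR : ∀ a b, R a b → R b a) (m : List β) :
    ∀ (l : List α), l.IsChain R →
    (snake l m).IsChain (fun x y => (R x.1 y.1 ∧ x.2 = y.2) ∨ x.1 = y.1) := by
  induction m with
  | nil => intro l _; simp [snake]
  | cons b m ih =>
    intro l hl
    simp only [snake]
    rw [List.isChain_append]
    refine ⟨?_, ih _ ?_, ?_⟩
    · rw [List.isChain_map]
      exact hl.imp (fun a b h => Or.inl ⟨h, rfl⟩)
    · rw [List.isChain_reverse]
      exact hl.imp (fun a b h => hR a b h)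
    · intro x hx y hy
      right
      cases m with
      | nil => simp [snake] at hy
      | cons b' m =>
        rcases List.eq_nil_or_concat l with rfl | ⟨l', a, rfl⟩
        · simp at hx
        · simp [snake] at hx hy
          rw [← hx, ← hy]

theorem isChain_erase {α : Type} [BEq α] [LawfulBEq α] (R S : α → α → Prop) (h1 : ∀ a b, R a b → S a b)
    (h2 : ∀ a b c, R a b → R b c → S a c) (x : α) :
    ∀ l : List α, l.IsChain R → (l.erase x).IsChain S := by
  intro l
  induction l with
  | nil => intro _; simp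
  | cons a l ih =>
    intro hl
    by_cases hax : a = x
    · subst hax
      rw [List.erase_cons_head]
      exact (List.isChain_cons.1 hl).2.imp h1
    · rw [List.erase_cons_tail (by simpa using hax)]
      cases l with
      | nil => simp
      | cons b l =>
        have hab : R a b := (List.isChain_cons_cons.1 hl).1
        have hbl := (List.isChain_cons_cons.1 hl).2
        have ih' := ih hbl
        by_cases hbx : b = x
        · subst hbx
          rw [List.erase_cons_head] at ih' ⊢
          rw [List.isChain_cons]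
          refine ⟨?_, ih'⟩
          intro y hy
          exact h2 _ _ _ hab ((List.isChain_cons.1 hbl).1 y hy)
        · rw [List.erase_cons_tail (by simpa using hbx)] at ih' ⊢
          rw [List.isChain_cons_cons]
          exact ⟨h1 _ _ hab, ih'⟩

/-- agreeing outside few coordinates -/
def Close {A N : Type} {E : ℕ} (k : ℕ) (x y : A × (Fin E → N)) : Prop :=
  ∃ D : Finset (Fin E), D.card ≤ k ∧ ∀ i, i ∉ D → x.2 i = y.2 i

theorem Close.symm {A N : Type} {E : ℕ} {k : ℕ} {x y : A × (Fin E → N)} (h : Close k x y) :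
    Close k y x := by
  obtain ⟨D, h1, h2⟩ := h
  exact ⟨D, h1, fun i hi => (h2 i hi).symm⟩

theorem Close.mono {A N : Type} {E : ℕ} {k k' : ℕ} (hk : k ≤ k') {x y : A × (Fin E → N)}
    (h : Close k x y) : Close k' x y := by
  obtain ⟨D, h1, h2⟩ := h
  exact ⟨D, h1.trans hk, h2⟩

theorem Close.trans {A N : Type} {E : ℕ} {k k' : ℕ} {x y z : A × (Fin E → N)}
    (h : Close k x y) (h' : Close k' y z) : Close (k + k') x z := by
  obtain ⟨D, h1, h2⟩ := h
  obtain ⟨D', h1', h2'⟩ := h'
  refine ⟨D ∪ D', (Finset.card_union_le _ _).trans (Nat.add_le_add h1 h1'), ?_⟩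
  intro i hi
  rw [Finset.mem_union, not_or] at hi
  exact (h2 i hi.1).trans (h2' i hi.2)

theorem exists_gray (A N : Type) [Fintype A] [Fintype N] (E : ℕ) :
    ∃ l : List (A × (Fin E → N)), l.Nodup ∧ (∀ x, x ∈ l) ∧ l.IsChain (Close 1) := by
  classical
  induction E with
  | zero =>
    refine ⟨(Finset.univ : Finset (A × (Fin 0 → N))).toList, Finset.nodup_toList _, ?_, ?_⟩
    · intro x
      simp
    · apply List.Pairwise.isChain
      apply List.pairwise_of_forall
      intro x y
      exact ⟨∅, by simp, fun i => i.elim0⟩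
  | succ E ih =>
    obtain ⟨l, h1, h2, h3⟩ := ih
    let F : (A × (Fin E → N)) × N → A × (Fin (E + 1) → N) := fun x =>
      (x.1.1, Fin.cons x.2 x.1.2)
    refine ⟨(snake l (Finset.univ : Finset N).toList).map F, ?_, ?_, ?_⟩
    · apply List.Nodup.map _ (nodup_snake _ (Finset.nodup_toList _) _ h1)
      rintro ⟨⟨a, f⟩, b⟩ ⟨⟨a', f'⟩, b'⟩ h
      simp only [F, Prod.mk.injEq] at h
      obtain ⟨h4, h5⟩ := h
      have h6 := Fin.cons_injective2 h5
      simp [h4, h6.1, h6.2]
    · rintro ⟨a, f⟩
      rw [List.mem_map]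
      refine ⟨((a, Fin.tail f), f 0), ?_, ?_⟩
      · rw [mem_snake]
        exact ⟨h2 _, by simp⟩
      · simp [F]
    · rw [List.isChain_map]
      refine (isChain_snake (Close 1) (fun a b h => h.symm) _ l h3).imp ?_
      rintro ⟨⟨a, f⟩, b⟩ ⟨⟨a', f'⟩, b'⟩ (⟨⟨D, h4, h5⟩, h6⟩ | h)
      · refine ⟨D.image Fin.succ, Finset.card_image_le.trans h4, ?_⟩
        intro i
        refine Fin.cases ?_ ?_ i
        · intro _
          simpa [F] using h6
        · intro i hi
          have : i ∉ D := fun h => hi (Finset.mem_image_of_mem _ h)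
          simpa [F] using h5 i this
      · refine ⟨{0}, by simp, ?_⟩
        intro i
        refine Fin.cases ?_ ?_ i
        · intro h'
          simp at h'
        · intro i _
          simp only [F, Fin.cons_succ]
          have : f = f' := (Prod.mk.inj h).2
          rw [this]

/-- Grouping all but two points in groups of fixed size. -/
theorem grouping (A N : Type) [Fintype A] [Fintype N] (E : ℕ)
    (xb xt : A × (Fin E → N)) (hne : xb ≠ xt) (P : Type) [Fintype P]
    (c : ℕ) (hc : c = Fintype.card (A × (Fin E → N)))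
    (hdvd : Fintype.card P ∣ c - 2) :
    ∃ (K : ℕ) (mem : Fin K → P → A × (Fin E → N)) (D : Fin K → Finset (Fin E)),
      (∀ g, (D g).card ≤ 4 * Fintype.card P) ∧
      (∀ g i j y, y ∉ D g → (mem g i).2 y = (mem g j).2 y) ∧
      (∀ x, x ≠ xb → x ≠ xt → ∃ g i, mem g i = x) ∧
      (∀ g g' i i', mem g i = mem g' i' → g = g' ∧ i = i') ∧
      (∀ g i, mem g i ≠ xb ∧ mem g i ≠ xt) := by
  classical
  obtain ⟨l0, h1, h2, h3⟩ := exists_gray A N E
  set l := (l0.erase xb).erase xt with hl
  have hnd : l.Nodup := (h1.erase xb).erase xt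
  have hmem : ∀ x, x ∈ l ↔ x ≠ xt ∧ x ≠ xb := by
    intro x
    rw [hl, (h1.erase xb).mem_erase_iff, h1.mem_erase_iff]
    simp [h2]
  have hch : l.IsChain (Close 4) := by
    have e1 : (l0.erase xb).IsChain (Close 2) := isChain_erase (Close 1) (Close 2)
      (fun a b h => h.mono (by omega)) (fun a b c h h' => h.trans h') xb l0 h3
    exact isChain_erase (Close 2) (Close 4)
      (fun a b h => h.mono (by omega)) (fun a b c h h' => h.trans h') xt _ e1
  have hlen : l.length = c - 2 := by
    have h0 : l0.length = c := by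
      rw [hc, ← Finset.card_univ, ← List.toFinset_card_of_nodup h1]
      congr 1
      ext x
      simp [h2]
    rw [hl, List.length_erase_of_mem, List.length_erase_of_mem (h2 _), h0]
    · omega
    · rw [h1.mem_erase_iff]
      exact ⟨hne.symm, h2 _⟩
  obtain ⟨K, hK⟩ := hdvd
  have hlenK : l.length = K * Fintype.card P := by
    rw [hlen, hK, Nat.mul_comm]
  let e := Fintype.equivFin P
  have hidx : ∀ (g : Fin K) (s : ℕ), s < Fintype.card P →
      (g : ℕ) * Fintype.card P + s < l.length := by
    intro g s hs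
    rw [hlenK]
    calc (g : ℕ) * Fintype.card P + s < g * Fintype.card P + Fintype.card P := by omega
      _ = (g + 1) * Fintype.card P := (Nat.succ_mul _ _).symm
      _ ≤ K * Fintype.card P := Nat.mul_le_mul_right _ g.2
  have hD : ∀ s : ℕ, ∃ D : Finset (Fin E), D.card ≤ 4 ∧ ∀ (h : s + 1 < l.length),
      ∀ i, i ∉ D → (l[s]'(by omega)).2 i = (l[s + 1]).2 i := by
    intro s
    by_cases h : s + 1 < l.length
    · obtain ⟨D, h4, h5⟩ := hch.getElem s h
      exact ⟨D, h4, fun _ => h5⟩
    · exact ⟨∅, by simp, fun h' => absurd h' h⟩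
  choose Dp hDp1 hDp2 using hD
  let D : Fin K → Finset (Fin E) := fun g =>
    (Finset.range (Fintype.card P)).biUnion (fun s => Dp (g * Fintype.card P + s))
  have hagree : ∀ (g : Fin K) (s : ℕ) (hs : s < Fintype.card P) (y : Fin E), y ∉ D g →
      (l[(g : ℕ) * Fintype.card P + s]'(hidx g s hs)).2 y =
      (l[(g : ℕ) * Fintype.card P + 0]'(hidx g 0 (by omega))).2 y := by
    intro g s
    induction s with
    | zero =>
      intro hs y hy
      rfl
    | succ s ih =>
      intro hs y hy
      have h4 := ih (by omega) y hy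
      rw [← h4]
      have h5 := hDp2 (g * Fintype.card P + s) (hidx g (s + 1) hs) y ?_
      · exact h5.symm
      · intro hcon
        apply hy
        simp only [D, Finset.mem_biUnion, Finset.mem_range]
        exact ⟨s, by omega, hcon⟩
  refine ⟨K, fun g i => l[(g : ℕ) * Fintype.card P + (e i : ℕ)]'(hidx g _ (e i).2), D,
    ?_, ?_, ?_, ?_, ?_⟩
  · intro g
    refine Finset.card_biUnion_le.trans ?_
    refine (Finset.sum_le_card_nsmul _ _ 4 (fun k _ => hDp1 _)).trans ?_
    simp [Nat.mul_comm]
  · intro g i j y hy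
    exact (hagree g _ (e i).2 y hy).trans (hagree g _ (e j).2 y hy).symm
  · intro x hx hx'
    have hxl : x ∈ l := (hmem x).2 ⟨hx', hx⟩
    obtain ⟨n, hn, rfl⟩ := List.getElem_of_mem hxl
    have hn' : n < K * Fintype.card P := by rw [← hlenK]; exact hn
    have hp : 0 < Fintype.card P := by
      rcases Nat.eq_zero_or_pos (Fintype.card P) with h | h
      · rw [h] at hn'
        omega
      · exact h
    have hg : n / Fintype.card P < K := by
      rw [Nat.div_lt_iff_lt_mul hp]
      exact hn'
    have hr : n % Fintype.card P < Fintype.card P := Nat.mod_lt _ hp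
    refine ⟨⟨n / Fintype.card P, hg⟩, e.symm ⟨n % Fintype.card P, hr⟩, ?_⟩
    have : (n / Fintype.card P) * Fintype.card P + n % Fintype.card P = n := by
      rw [Nat.mul_comm]
      exact Nat.div_add_mod _ _
    simp only [Equiv.apply_symm_apply, this]
  · intro g g' i i' h
    have h4 := (List.Nodup.getElem_inj_iff hnd).1 h
    have hp : 0 < Fintype.card P := lt_of_le_of_lt (Nat.zero_le _) (e i).2
    have h5 : (g : ℕ) = g' := by
      have e1 : ((g : ℕ) * Fintype.card P + (e i : ℕ)) / Fintype.card P = g := by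
        rw [Nat.mul_comm, Nat.mul_add_div hp, Nat.div_eq_of_lt (e i).2, Nat.add_zero]
      have e2 : ((g' : ℕ) * Fintype.card P + (e i' : ℕ)) / Fintype.card P = g' := by
        rw [Nat.mul_comm, Nat.mul_add_div hp, Nat.div_eq_of_lt (e i').2, Nat.add_zero]
      rw [← e1, ← e2, h4]
    have h6 : (e i : ℕ) = e i' := by
      rw [h5] at h4
      omega
    exact ⟨Fin.ext h5, e.injective (Fin.ext h6)⟩
  · intro g i
    have := (hmem _).1 (List.getElem_mem (hidx g _ (e i).2))
    exact ⟨this.2, this.1⟩

end Pool.Agent.H57.Lonc
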