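import Pool.Agent.H57.Lonc.Gadget

set_option autoImplicit false

namespace Pool.Agent.H57.Lonc

section lines2

variable {P S A I : Type} [PartialOrder P] [PartialOrder S] [BoundedOrder S]

open Classical in
/-- index of the tile containing `s`, if any -/
noncomputable def tix (B : Base P S) (s : S) : Option B.τ :=
  if h : ∃ t z, s = B.tile t z then some h.choose else none

theorem tix_tile (B : Base P S) (t : B.τ) (z : P) : tix B (B.tile t z) = some t := by
  have h : ∃ t' z', B.tile t z = B.tile t' z' := ⟨t, z, rfl⟩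
  rw [tix, dif_pos h]
  obtain ⟨z', hz'⟩ := h.choose_spec
  rw [(B.inj _ _ _ _ hz').1.symm]

theorem tix_none (B : Base P S) (s : S) (h : ∀ t z, s ≠ B.tile t z) : tix B s = none := by
  rw [tix, dif_neg]
  rintro ⟨t, z, e⟩
  exact h t z e

theorem tix_some (B : Base P S) (s : S) (t : B.τ) (h : tix B s = some t) :
    ∃ z, s = B.tile t z := by
  by_cases h' : ∃ t z, s = B.tile t z
  · obtain ⟨t', z, rfl⟩ := h'
    rw [tix_tile] at h
    cases h
    exact ⟨z, rfl⟩
  · rw [tix, dif_neg h'] at h
    cases h

theorem tix_ne_none (B : Base P S) (s : S) (h : tix B s ≠ none) : ∃ t z, s = B.tile t z := by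
  by_contra hcon
  apply h
  apply tix_none
  intro t z e
  exact hcon ⟨t, z, e⟩

/-- preferred coordinate of a type vector -/
noncomputable def pick [Nonempty I] (B : Base P S) (v : I → Option B.τ) : I :=
  Classical.epsilon (fun y => (∃ t, v y = some t ∧ B.sig t ≠ none) ∨
    (v y ≠ none ∧ ¬ ∃ y' t, v y' = some t ∧ B.sig t ≠ none))

theorem pick_ne [Nonempty I] (B : Base P S) (v : I → Option B.τ) (h : ∃ y, v y ≠ none) :
    v (pick B v) ≠ none := by
  have hp : ∃ y, (∃ t, v y = some t ∧ B.sig t ≠ none) ∨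
    (v y ≠ none ∧ ¬ ∃ y' t, v y' = some t ∧ B.sig t ≠ none) := by
    by_cases h1 : ∃ y' t, v y' = some t ∧ B.sig t ≠ none
    · obtain ⟨y, t, h2⟩ := h1
      exact ⟨y, Or.inl ⟨t, h2⟩⟩
    · obtain ⟨y, hy⟩ := h
      exact ⟨y, Or.inr ⟨hy, h1⟩⟩
  rcases Classical.epsilon_spec hp with ⟨t, h1, -⟩ | ⟨h1, -⟩
  · intro h2
    change v (pick B v) = some t at h1
    rw [h2] at h1
    cases h1
  · exact h1

theorem pick_main [Nonempty I] (B : Base P S) (v : I → Option B.τ) (y : I) (t : B.τ)
    (h1 : v y = some t) (h2 : B.sig t ≠ none)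
    (h3 : ∀ y' t', v y' = some t' → B.sig t' ≠ none → y' = y) : pick B v = y := by
  have hp : ∃ y, (∃ t, v y = some t ∧ B.sig t ≠ none) ∨
    (v y ≠ none ∧ ¬ ∃ y' t, v y' = some t ∧ B.sig t ≠ none) := ⟨y, Or.inl ⟨t, h1, h2⟩⟩
  rcases Classical.epsilon_spec hp with ⟨t', h4, h5⟩ | ⟨-, h4⟩
  · exact h3 _ t' h4 h5
  · exact absurd ⟨y, t, h1, h2⟩ h4

/-- type vector of a point -/
noncomputable def tv (B : Base P S) (x : A × (I → S)) : I → Option B.τ := fun y => tix B (x.2 y)

/-- the line through a point -/
noncomputable def lineOf [Nonempty I] [DecidableEq I] (B : Base P S) (x : A × (I → S)) (z : P) :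
    A × (I → S) :=
  (x.1, Function.update x.2 (pick B (tv B x))
    ((tv B x (pick B (tv B x))).elim (x.2 (pick B (tv B x))) (fun t => B.tile t z)))

/-- holes -/
def Hole (B : Base P S) (x : A × (I → S)) : Prop := ∀ y t z, x.2 y ≠ B.tile t z

theorem lineOf_spec [Nonempty I] [DecidableEq I] (B : Base P S) (x : A × (I → S))
    (hx : ¬ Hole B x) : ∃ (y : I) (t : B.τ) (z0 : P), pick B (tv B x) = y ∧ tv B x y = some t ∧
      x.2 y = B.tile t z0 ∧ ∀ z, lineOf B x z = (x.1, Function.update x.2 y (B.tile t z)) := by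
  have h1 : ∃ y, tv B x y ≠ none := by
    by_contra hcon
    apply hx
    intro y t z e
    apply hcon
    refine ⟨y, ?_⟩
    simp only [tv, e, tix_tile]
    exact Option.some_ne_none _
  have h2 := pick_ne B (tv B x) h1
  obtain ⟨t, ht⟩ := Option.ne_none_iff_exists'.1 h2
  obtain ⟨z0, hz0⟩ := tix_some B _ t ht
  refine ⟨pick B (tv B x), t, z0, rfl, ht, hz0, ?_⟩
  intro z
  simp only [lineOf, ht, Option.elim]

theorem tv_update [DecidableEq I] (B : Base P S) (x : A × (I → S)) (y : I) (t : B.τ)
    (h : tv B x y = some t) (z : P) :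
    tv B ((x.1, Function.update x.2 y (B.tile t z)) : A × (I → S)) = tv B x := by
  funext y'
  by_cases hy : y' = y
  · subst hy
    rw [h]
    simp only [tv, Function.update_self, tix_tile]
  · simp only [tv, Function.update_of_ne hy]

theorem lineOf_self [Nonempty I] [DecidableEq I] (B : Base P S) (x : A × (I → S))
    (hx : ¬ Hole B x) : ∃ z, lineOf B x z = x := by
  obtain ⟨y, t, z0, h1, h2, h3, h4⟩ := lineOf_spec B x hx
  refine ⟨z0, ?_⟩
  rw [h4, ← h3, Function.update_eq_self]

theorem lineOf_not_hole [Nonempty I] [DecidableEq I] (B : Base P S) (x : A × (I → S))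
    (hx : ¬ Hole B x) (z : P) : ¬ Hole B (lineOf B x z) := by
  obtain ⟨y, t, z0, h1, h2, h3, h4⟩ := lineOf_spec B x hx
  intro hcon
  apply hcon y t z
  rw [h4]
  simp

theorem lineOf_lineOf [Nonempty I] [DecidableEq I] (B : Base P S) (x : A × (I → S))
    (hx : ¬ Hole B x) (z : P) : lineOf B (lineOf B x z) = lineOf B x := by
  obtain ⟨y, t, z0, h1, h2, h3, h4⟩ := lineOf_spec B x hx
  have h5 : tv B (lineOf B x z) = tv B x := by
    rw [h4]
    exact tv_update B x y t h2 z
  funext z'
  rw [h4 z']
  have h6 : lineOf B (lineOf B x z) z' =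
      ((lineOf B x z).1, Function.update (lineOf B x z).2 (pick B (tv B (lineOf B x z)))
    ((tv B (lineOf B x z) (pick B (tv B (lineOf B x z)))).elim
      ((lineOf B x z).2 (pick B (tv B (lineOf B x z)))) (fun t => B.tile t z'))) := rfl
  rw [h6, h5, h1, h2, h4 z]
  simp

theorem lineOf_le [Nonempty I] [DecidableEq I] [PartialOrder A] (B : Base P S) (x : A × (I → S))
    (hx : ¬ Hole B x) (a b : P) : lineOf B x a ≤ lineOf B x b ↔ a ≤ b := by
  obtain ⟨y, t, z0, h1, h2, h3, h4⟩ := lineOf_spec B x hx
  rw [h4, h4, Prod.le_def]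
  constructor
  · intro h
    have := h.2 y
    simp only [Function.update_self] at this
    exact (B.emb _ _ _).1 this
  · intro h
    refine ⟨le_rfl, ?_⟩
    intro y'
    by_cases hy : y' = y
    · subst hy
      simp only [Function.update_self]
      exact (B.emb _ _ _).2 h
    · simp only [Function.update_of_ne hy]
      exact le_rfl

theorem lineOf_inj [Nonempty I] [DecidableEq I] (B : Base P S) (x : A × (I → S))
    (hx : ¬ Hole B x) (a b : P) (h : lineOf B x a = lineOf B x b) : a = b := by
  obtain ⟨y, t, z0, h1, h2, h3, h4⟩ := lineOf_spec B x hx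
  rw [h4, h4] at h
  have := congrFun (congrArg Prod.snd h) y
  simp only [Function.update_self] at this
  exact (B.inj _ _ _ _ this).2

variable [PartialOrder A] [BoundedOrder A]

theorem main_data [Nonempty I] [DecidableEq I] (B : Base P S) (σ : P) (b : Bool)
    (L : P → A × (I → S)) (h : IsMain B σ b L) (z : P) :
    ¬ Hole B (L z) ∧ lineOf B (L z) = L ∧ ∃ t, (L z).2 (pick B (tv B (L z))) = B.tile t z ∧
      B.sig t = some σ ∧ B.side t = b := by
  obtain ⟨a, c, y, t, h1, h2, h3, h4⟩ := h
  have h5 : ¬ Hole B (L z) := by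
    intro hcon
    apply hcon y t z
    rw [h4]
    simp
  have h6 : pick B (tv B (L z)) = y := by
    apply pick_main B _ y t
    · rw [h4]
      simp [tv, tix_tile]
    · rw [h2]
      exact Option.some_ne_none _
    · intro y' t' h7 h8
      by_contra hne
      rw [h4] at h7
      simp only [tv, Function.update_of_ne hne] at h7
      obtain ⟨z', hz'⟩ := tix_some B _ _ h7
      exact h8 (h1 y' hne t' z' hz')
  refine ⟨h5, ?_, t, ?_, h2, h3⟩
  · funext z'
    obtain ⟨y', t', z0, k1, k2, k3, k4⟩ := lineOf_spec B (L z) h5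
    rw [h6] at k1
    subst k1
    have k5 : t' = t := by
      rw [h4] at k2
      simp only [tv, Function.update_self, tix_tile] at k2
      exact (Option.some.inj k2).symm
    subst k5
    rw [k4, h4 z, h4 z']
    simp
  · rw [h6, h4]
    simp

theorem main_unique [Nonempty I] [DecidableEq I] (B : Base P S) (σ σ' : P) (b b' : Bool)
    (L : P → A × (I → S)) (h : IsMain B σ b L) (h' : IsMain B σ' b' L) : σ = σ' ∧ b = b' := by
  obtain ⟨-, -, t, h1, h2, h3⟩ := main_data B σ b L h σ
  obtain ⟨-, -, t', h1', h2', h3'⟩ := main_data B σ' b' L h' σ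
  rw [h1] at h1'
  have := (B.inj _ _ _ _ h1').1
  subst this
  rw [h2] at h2'
  rw [h3] at h3'
  exact ⟨Option.some.inj h2', h3'⟩

/-- A tiling of the poset without its extreme points by copies of `P`. -/
def Tiled (P Ω : Type) [PartialOrder P] [PartialOrder Ω] [BoundedOrder Ω] : Prop :=
  ∃ (J : Type) (e : J → P → Ω), (∀ i a b, e i a ≤ e i b ↔ a ≤ b) ∧
    (∀ i a, e i a ≠ ⊥ ∧ e i a ≠ ⊤) ∧
    ∀ s, s ≠ ⊥ → s ≠ ⊤ → ∃! p : J × P, e p.1 p.2 = s

theorem assemble [Nonempty I] [DecidableEq I] (B : Base P S)
    (G : Type) (mem : G → P → A × (I → S)) (h : G → P) (L : G → P → P → A × (I → S))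
    (hole : ∀ g i, Hole B (mem g i))
    (memAll : ∀ x, x ≠ ⊥ → x ≠ ⊤ → Hole B x → ∃ g i, mem g i = x)
    (memInj : ∀ g g' i i', mem g i = mem g' i' → g = g' ∧ i = i')
    (memNe : ∀ g i, mem g i ≠ ⊥ ∧ mem g i ≠ ⊤)
    (hmain : ∀ g j, ∃ b, IsMain B j b (L g j))
    (Linj : ∀ g g' j, L g j = L g' j → g = g')
    (e1 : ∀ g j j' i, j ≠ h g → j' ≠ h g → (L g j i ≤ L g j' i ↔ j ≤ j'))
    (e2 : ∀ g j i, j ≠ h g → (mem g i ≤ L g j i ↔ h g ≤ j))
    (e3 : ∀ g j i, j ≠ h g → (L g j i ≤ mem g i ↔ j ≤ h g)) :
    Tiled P (A × (I → S)) := by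
  classical
  have holeBot : ∀ x : A × (I → S), ¬ Hole B x → x ≠ ⊥ ∧ x ≠ ⊤ := by
    intro x hx
    constructor
    · rintro rfl
      apply hx
      intro y t z e
      exact B.ne_bot t z e.symm
    · rintro rfl
      apply hx
      intro y t z e
      exact B.ne_top t z e.symm
  have hLh : ∀ g j i, ¬ Hole B (L g j i) := by
    intro g j i
    obtain ⟨b, hb⟩ := hmain g j
    exact (main_data B j b _ hb i).1
  have hLl : ∀ g j i, lineOf B (L g j i) = L g j := by
    intro g j i
    obtain ⟨b, hb⟩ := hmain g j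
    exact (main_data B j b _ hb i).2.1
  have hLinj : ∀ g g' j j', L g j = L g' j' → g = g' ∧ j = j' := by
    intro g g' j j' e
    obtain ⟨b, hb⟩ := hmain g j
    obtain ⟨b', hb'⟩ := hmain g' j'
    rw [← e] at hb'
    have h1 := (main_unique B j j' b b' _ hb hb').1
    subst h1
    exact ⟨Linj g g' j e, rfl⟩
  have hLinj2 : ∀ g j i i', L g j i = L g j i' → i = i' := by
    intro g j i i' e
    apply lineOf_inj B (L g j i) (hLh g j i)
    rw [hLl]
    exact e
  let J := (G × P) ⊕ {l : P → A × (I → S) //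
    (∃ x, ¬ Hole B x ∧ l = lineOf B x) ∧ ∀ g j, j ≠ h g → l ≠ L g j}
  let e : J → P → A × (I → S) := fun q z => match q with
    | Sum.inl (g, i) => if z = h g then mem g i else L g z i
    | Sum.inr l => l.1 z
  refine ⟨J, e, ?_, ?_, ?_⟩
  · rintro (⟨g, i⟩ | ⟨l, ⟨x, hx, rfl⟩, hl⟩) a b
    · simp only [e]
      by_cases ha : a = h g
      · by_cases hb : b = h g
        · rw [ha, hb]
          simp
        · rw [if_pos ha, if_neg hb, e2 g b i hb, ha]
      · by_cases hb : b = h g
        · rw [if_neg ha, if_pos hb, e3 g a i ha, hb]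
        · rw [if_neg ha, if_neg hb, e1 g a b i ha hb]
    · exact lineOf_le B x hx a b
  · rintro (⟨g, i⟩ | ⟨l, ⟨x, hx, rfl⟩, hl⟩) a
    · simp only [e]
      by_cases ha : a = h g
      · rw [if_pos ha]
        exact memNe g i
      · rw [if_neg ha]
        exact holeBot _ (hLh g a i)
    · exact holeBot _ (lineOf_not_hole B x hx a)
  · intro s hs1 hs2
    by_cases hs : Hole B s
    · obtain ⟨g, i, rfl⟩ := memAll s hs1 hs2 hs
      refine ⟨(Sum.inl (g, i), h g), ?_, ?_⟩
      · simp [e]
      · rintro ⟨(⟨g', i'⟩ | ⟨l, ⟨x, hx, rfl⟩, hl⟩), z⟩ heq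
        · simp only [e] at heq
          by_cases hz : z = h g'
          · rw [if_pos hz] at heq
            obtain ⟨h1, h2⟩ := memInj _ _ _ _ heq
            subst h1
            subst h2
            rw [hz]
          · rw [if_neg hz] at heq
            exfalso
            apply hLh g' z i'
            rw [heq]
            exact hs
        · exfalso
          simp only [e] at heq
          apply lineOf_not_hole B x hx z
          rw [heq]
          exact hs
    · obtain ⟨z0, hz0⟩ := lineOf_self B s hs
      by_cases hused : ∃ g j, j ≠ h g ∧ lineOf B s = L g j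
      · obtain ⟨g, j, hj, hl⟩ := hused
        refine ⟨(Sum.inl (g, z0), j), ?_, ?_⟩
        · simp only [e, if_neg hj]
          rw [← hl]
          exact hz0
        · rintro ⟨(⟨g', i'⟩ | ⟨l, ⟨x, hx, rfl⟩, hl'⟩), z⟩ heq
          · simp only [e] at heq
            by_cases hz : z = h g'
            · rw [if_pos hz] at heq
              exfalso
              apply hs
              rw [← heq]
              exact hole g' i'
            · rw [if_neg hz] at heq
              have h1 : L g' z = L g j := by
                rw [← hl, ← heq, hLl]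
              obtain ⟨h2, h3⟩ := hLinj _ _ _ _ h1
              subst h2
              subst h3
              have h4 : L g' z i' = L g' z z0 := by
                rw [heq, ← hl]
                exact hz0.symm
              rw [hLinj2 _ _ _ _ h4]
          · exfalso
            simp only [e] at heq
            apply hl' g j hj
            rw [← hl, ← heq, lineOf_lineOf B x hx]
      · refine ⟨(Sum.inr ⟨lineOf B s, ⟨s, hs, rfl⟩, ?_⟩, z0), ?_, ?_⟩
        · intro g j hj hcon
          exact hused ⟨g, j, hj, hcon⟩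
        · exact hz0
        · rintro ⟨(⟨g', i'⟩ | ⟨l, ⟨x, hx, rfl⟩, hl'⟩), z⟩ heq
          · simp only [e] at heq
            by_cases hz : z = h g'
            · rw [if_pos hz] at heq
              exfalso
              apply hs
              rw [← heq]
              exact hole g' i'
            · rw [if_neg hz] at heq
              exfalso
              apply hused
              refine ⟨g', z, hz, ?_⟩
              rw [← heq, hLl]
          · simp only [e] at heq
            have h1 : lineOf B x = lineOf B s := by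
              rw [← heq, lineOf_lineOf B x hx]
            have h2 : z = z0 := by
              apply lineOf_inj B x hx
              rw [heq, h1, hz0]
            subst h2
            exact Prod.ext (congrArg Sum.inr (Subtype.ext h1)) rfl

end lines2

end Pool.Agent.H57.Lonc
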