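import Pool.Agent.H57.Lonc.Gadget

set_option autoImplicit false

namespace Pool.Agent.H57.Lonc

section marks

variable {P S A I : Type} [PartialOrder P] [PartialOrder S] [BoundedOrder S]
  [PartialOrder A] [BoundedOrder A] [DecidableEq I] [Fintype P] [Fintype I] [Fintype A] [Fintype S]

open Classical in
/-- The available rooms. -/
noncomputable def roomSet (B : Base P S) (w : I → S) (D : Finset I) (nN : P → I) : Finset I :=
  Finset.univ.filter (fun y => y ∉ D ∧ (∀ k, y ≠ nN k) ∧
    ∀ σ a, w y ≤ B.tile (B.f (w y) σ true) a)

theorem mem_roomSet (B : Base P S) (w : I → S) (D : Finset I) (nN : P → I) (y : I) :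
    y ∈ roomSet B w D nN ↔ y ∉ D ∧ (∀ k, y ≠ nN k) ∧
    ∀ σ a, w y ≤ B.tile (B.f (w y) σ true) a := by
  classical
  simp [roomSet]

theorem good_of (B : Base P S) (w : I → S) (D : Finset I) (nN : P → I) (Y : P → Finset I)
    (hw : ∀ y, ∀ t z, w y ≠ B.tile t z)
    (inj : Function.Injective nN)
    (nD : ∀ k, nN k ∉ D)
    (nUp : ∀ k, ∀ σ a, w (nN k) ≤ B.tile (B.f (w (nN k)) σ true) a)
    (hY : ∀ k, Y k ⊆ roomSet B w D nN) : Good B w D nN Y where
  hw := hw
  inj := inj
  nD := nD
  nUp := nUp
  yD := fun k y hy => ((mem_roomSet B w D nN y).1 (hY k hy)).1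
  yN := fun k y hy => ((mem_roomSet B w D nN y).1 (hY k hy)).2.1
  yUp := fun k y hy => ((mem_roomSet B w D nN y).1 (hY k hy)).2.2

variable (B : Base P S) (z₁ : P) {G : Type} [Fintype G] (a : G → A) (w : G → I → S)
  (D : G → Finset I) (nN : G → P → I)

/-- One marriage step. -/
theorem hall_step
    (hinj : Function.Injective (fun g => (a g, w g)))
    (hw : ∀ g y, ∀ t z, w g y ≠ B.tile t z)
    (inj : ∀ g, Function.Injective (nN g))
    (nD : ∀ g k, nN g k ∉ D g)
    (nUp : ∀ g k, ∀ σ a, w g (nN g k) ≤ B.tile (B.f (w g (nN g k)) σ true) a)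
    (R M d : ℕ) (hd : ∀ g, (D g).card ≤ d)
    (hR : ∀ g, R ≤ (roomSet B (w g) (D g) (nN g)).card)
    (hbig : Fintype.card A * ((Fintype.card I * Fintype.card S) ^ (d + Fintype.card P) *
      (Fintype.card S) ^ (Fintype.card P * M + 1)) ≤ Nat.choose (R - Fintype.card P * M) M)
    (hpos : 0 < Nat.choose (R - Fintype.card P * M) M)
    (Y : G → P → Finset I) (hY : ∀ g k, Y g k ⊆ roomSet B (w g) (D g) (nN g))
    (hYc : ∀ g k, (Y g k).card ≤ M) (j : P) :
    ∃ y : G → Finset I, (∀ g, y g ⊆ roomSet B (w g) (D g) (nN g)) ∧ (∀ g, (y g).card ≤ M) ∧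
      Function.Injective (fun g => gln A B z₁ (w g) (D g) (nN g)
        (fun k => open Classical in if k = j then y g else Y g k) j z₁) := by
  classical
  set U : G → Finset I := fun g => roomSet B (w g) (D g) (nN g) \
    (Finset.univ.biUnion (fun k => Y g k)) with hU
  have hUc : ∀ g, R - Fintype.card P * M ≤ (U g).card := by
    intro g
    have h1 : (Finset.univ.biUnion (fun k => Y g k)).card ≤ Fintype.card P * M := by
      refine Finset.card_biUnion_le.trans ?_
      refine (Finset.sum_le_card_nsmul _ _ M (fun k _ => hYc g k)).trans ?_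
      simp
    have h2 := Finset.le_card_sdiff (Finset.univ.biUnion (fun k => Y g k))
      (roomSet B (w g) (D g) (nN g))
    have h3 := hR g
    simp only [hU]
    omega
  set Z : G → Finset I → P → Finset I := fun g y k => if k = j then y else Y g k with hZ
  have hgood : ∀ g y, y ⊆ roomSet B (w g) (D g) (nN g) → Good B (w g) (D g) (nN g) (Z g y) := by
    intro g y hy
    apply good_of B (w g) (D g) (nN g) _ (hw g) (inj g) (nD g) (nUp g)
    intro k
    simp only [hZ]
    split_ifs
    · exact hy
    · exact hY g k
  have hUsub : ∀ g, ∀ y ∈ Finset.powersetCard M (U g), y ⊆ roomSet B (w g) (D g) (nN g) ∧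
      y.card = M ∧ ∀ k, ∀ x ∈ y, x ∉ Y g k := by
    intro g y hy
    rw [Finset.mem_powersetCard] at hy
    refine ⟨hy.1.trans Finset.sdiff_subset, hy.2, ?_⟩
    intro k x hx hx2
    have := hy.1 hx
    simp only [hU, Finset.mem_sdiff, Finset.mem_biUnion, Finset.mem_univ, true_and] at this
    exact this.2 ⟨k, hx2⟩
  let t : G → Finset (A × (I → S)) := fun g =>
    (Finset.powersetCard M (U g)).image (fun y => gln A B z₁ (w g) (D g) (nN g) (Z g y) j z₁)
  have ht1 : ∀ g, Nat.choose (R - Fintype.card P * M) M ≤ (t g).card := by
    intro g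
    simp only [t]
    rw [Finset.card_image_of_injOn, Finset.card_powersetCard]
    · exact Nat.choose_le_choose M (hUc g)
    · intro y hy y' hy' e
      obtain ⟨hy1, -, hy3⟩ := hUsub g y hy
      obtain ⟨hy1', -, hy3'⟩ := hUsub g y' hy'
      have hs : ∀ (u u' : Finset I), u ⊆ roomSet B (w g) (D g) (nN g) →
          (∀ k, ∀ x ∈ u, x ∉ Y g k) →
          gln A B z₁ (w g) (D g) (nN g) (Z g u) j z₁ = gln A B z₁ (w g) (D g) (nN g) (Z g u') j z₁ →
          u ⊆ u' := by
        intro u u' h1 h2 h3
        have h4 := gln_Y_sub (Z g u') (hgood g u h1) j z₁ ?_ ?_ h3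
        · simpa [hZ] using h4
        · intro k hk
          simp only [hZ, if_neg hk.ne]
        · intro k hk x hx
          simp only [hZ, if_neg hk.ne]
          apply h2 k x
          simpa [hZ] using hx
      exact Finset.Subset.antisymm (hs y y' hy1 hy3 e) (hs y' y hy1' hy3' e.symm)
  have ht2 : ∀ b, (Finset.univ.filter (fun g => b ∈ t g)).card ≤
      Nat.choose (R - Fintype.card P * M) M := by
    intro b
    rcases (Finset.univ.filter (fun g => b ∈ t g)).eq_empty_or_nonempty with he | ⟨g0, hg0⟩
    · rw [he]
      simp
    · refine le_trans ?_ hbig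
      set V : Finset I := Finset.univ.filter (fun y => ∃ t z, b.2 y = B.tile t z) with hV
      have hVc : V.card ≤ Fintype.card P * M + 1 := by
        simp only [Finset.mem_filter, Finset.mem_univ, true_and, t, Finset.mem_image] at hg0
        obtain ⟨y, hy, e⟩ := hg0
        obtain ⟨hy1, hy2, hy3⟩ := hUsub g0 y hy
        have hsub : V ⊆ insert (nN g0 j) (Finset.univ.biUnion (fun k => Z g0 y k)) := by
          intro x hx
          simp only [hV, Finset.mem_filter, Finset.mem_univ, true_and] at hx
          obtain ⟨t', z', hx⟩ := hx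
          rw [← e] at hx
          rcases gln_tile (hgood g0 y hy1) j z₁ x t' z' hx with h1 | ⟨⟨k, -, hk⟩, -⟩
          · rw [h1]
            exact Finset.mem_insert_self _ _
          · apply Finset.mem_insert_of_mem
            rw [Finset.mem_biUnion]
            exact ⟨k, Finset.mem_univ _, hk⟩
        refine (Finset.card_le_card hsub).trans ((Finset.card_insert_le _ _).trans ?_)
        apply Nat.add_le_add_right
        refine Finset.card_biUnion_le.trans ?_
        refine (Finset.sum_le_card_nsmul _ _ M (fun k _ => ?_)).trans ?_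
        · simp only [hZ]
          split_ifs
          · exact hy2.le
          · exact hYc g0 k
        · simp
      have hinj' : Set.InjOn (fun g => (a g, w g))
          (Finset.univ.filter (fun g => b ∈ t g) : Set G) := hinj.injOn
      rw [← Finset.card_image_of_injOn hinj']
      refine (ball_count b.2 V (d + Fintype.card P) (nN g0 z₁) _ ?_).trans ?_
      · intro x hx
        rw [Finset.mem_image] at hx
        obtain ⟨g, hg, rfl⟩ := hx
        simp only [Finset.mem_filter, Finset.mem_univ, true_and, t, Finset.mem_image] at hg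
        obtain ⟨y, hy, e⟩ := hg
        obtain ⟨hy1, hy2, hy3⟩ := hUsub g y hy
        refine ⟨D g ∪ Finset.univ.image (nN g), ?_, ?_⟩
        · refine (Finset.card_union_le _ _).trans ?_
          apply Nat.add_le_add (hd g)
          refine Finset.card_image_le.trans ?_
          simp
        · intro x hx hxV
          simp only [Finset.mem_union, Finset.mem_image, Finset.mem_univ, true_and, not_or,
            not_exists] at hx
          have h1 := gln_recover (hgood g y hy1) (A := A) (z₁ := z₁) j z₁ x hx.1
            (fun k e => hx.2 k e.symm) ?_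
          · rw [e] at h1
            exact h1
          · intro t' z' e'
            rw [e] at e'
            apply hxV
            simp only [hV, Finset.mem_filter, Finset.mem_univ, true_and]
            exact ⟨t', z', e'⟩
      · apply Nat.mul_le_mul_left
        apply Nat.mul_le_mul_left
        apply Nat.pow_le_pow_right _ hVc
        exact Fintype.card_pos_iff.2 ⟨⊥⟩
  obtain ⟨F, hF1, hF2⟩ := hall_deg t _ hpos ht1 ht2
  have hF3 : ∀ g, ∃ y ∈ Finset.powersetCard M (U g),
      gln A B z₁ (w g) (D g) (nN g) (Z g y) j z₁ = F g := by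
    intro g
    have := hF2 g
    simp only [t, Finset.mem_image] at this
    exact this
  choose y hy1 hy2 using hF3
  refine ⟨y, fun g => (hUsub g (y g) (hy1 g)).1, fun g => (hUsub g (y g) (hy1 g)).2.1.le, ?_⟩
  intro g g' e
  apply hF1
  rw [← hy2 g, ← hy2 g']
  exact e

/-- Marks making all the lines distinct. -/
theorem exists_marks
    (hinj : Function.Injective (fun g => (a g, w g)))
    (hw : ∀ g y, ∀ t z, w g y ≠ B.tile t z)
    (inj : ∀ g, Function.Injective (nN g))
    (nD : ∀ g k, nN g k ∉ D g)
    (nUp : ∀ g k, ∀ σ a, w g (nN g k) ≤ B.tile (B.f (w g (nN g k)) σ true) a)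
    (R M d : ℕ) (hd : ∀ g, (D g).card ≤ d)
    (hR : ∀ g, R ≤ (roomSet B (w g) (D g) (nN g)).card)
    (hbig : Fintype.card A * ((Fintype.card I * Fintype.card S) ^ (d + Fintype.card P) *
      (Fintype.card S) ^ (Fintype.card P * M + 1)) ≤ Nat.choose (R - Fintype.card P * M) M)
    (hpos : 0 < Nat.choose (R - Fintype.card P * M) M) :
    ∃ Y : G → P → Finset I, (∀ g k, Y g k ⊆ roomSet B (w g) (D g) (nN g)) ∧
      ∀ j, Function.Injective (fun g => gln A B z₁ (w g) (D g) (nN g) (Y g) j z₁) := by
  classical
  let r : P → ℕ := fun j => (Finset.univ.filter (fun k => k < j)).card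
  have hr : ∀ k j, k < j → r k < r j := by
    intro k j hkj
    apply Finset.card_lt_card
    rw [Finset.ssubset_iff_of_subset]
    · refine ⟨k, ?_, ?_⟩
      · simp [hkj]
      · simp
    · intro x hx
      simp only [Finset.mem_filter, Finset.mem_univ, true_and] at hx ⊢
      exact hx.trans hkj
  have main : ∀ t : ℕ, ∃ Y : G → P → Finset I,
      (∀ g k, Y g k ⊆ roomSet B (w g) (D g) (nN g)) ∧ (∀ g k, (Y g k).card ≤ M) ∧
      ∀ j, r j < t →
        Function.Injective (fun g => gln A B z₁ (w g) (D g) (nN g) (Y g) j z₁) := by
    intro t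
    induction t with
    | zero =>
      refine ⟨fun _ _ => ∅, ?_, ?_, ?_⟩
      · intro g k
        exact Finset.empty_subset _
      · intro g k
        simp
      · intro j hj
        omega
    | succ t ih =>
      obtain ⟨Y, hY, hYc, hYi⟩ := ih
      have hs := fun j => hall_step B z₁ a w D nN hinj hw inj nD nUp R M d hd hR hbig hpos Y hY
        hYc j
      choose y hy1 hy2 hy3 using hs
      refine ⟨fun g k => if r k = t then y k g else Y g k, ?_, ?_, ?_⟩
      · intro g k
        dsimp only
        split_ifs
        · exact hy1 k g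
        · exact hY g k
      · intro g k
        dsimp only
        split_ifs
        · exact hy2 k g
        · exact hYc g k
      · intro j hj
        rcases Nat.lt_succ_iff_lt_or_eq.1 hj with hj | hj
        · have h1 := hYi j hj
          have h2 : (fun g => gln A B z₁ (w g) (D g) (nN g)
              ((fun g k => if r k = t then y k g else Y g k) g) j z₁) =
              (fun g => gln A B z₁ (w g) (D g) (nN g) (Y g) j z₁) := by
            funext g
            apply gln_congr
            intro k hk
            have : r k ≠ t := by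
              rcases hk.lt_or_eq with h | h
              · have := hr k j h
                omega
              · rw [h]
                omega
            simp only [if_neg this]
          rw [h2]
          exact h1
        · have h1 := hy3 j
          have h2 : (fun g => gln A B z₁ (w g) (D g) (nN g)
              ((fun g k => if r k = t then y k g else Y g k) g) j z₁) =
              (fun g => gln A B z₁ (w g) (D g) (nN g)
                (fun k => if k = j then y j g else Y g k) j z₁) := by
            funext g
            apply gln_congr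
            intro k hk
            rcases hk.lt_or_eq with h | h
            · have h3 := hr k j h
              have h4 : r k ≠ t := by omega
              simp only [if_neg h4, if_neg h.ne]
            · subst h
              simp only [if_pos hj, if_true]
          rw [h2]
          exact h1
  obtain ⟨Y, hY, -, hYi⟩ := main (Fintype.card P + 1)
  refine ⟨Y, hY, ?_⟩
  intro j
  apply hYi
  have : r j ≤ Fintype.card P := Finset.card_le_univ _
  omega

end marks

end Pool.Agent.H57.Lonc
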