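import Pool.Agent.H57.Lonc.Marks
import Mathlib.Data.Fintype.Order

set_option autoImplicit false

namespace Pool.Agent.H57.Lonc

section pack

variable {P S A I : Type} [PartialOrder P] [PartialOrder S] [BoundedOrder S]
  [PartialOrder A] [BoundedOrder A] [DecidableEq I] [Fintype P] [Fintype I] [Fintype A] [Fintype S]

open Classical in
/-- The gadgets for groups having many up-rooms. -/
theorem gadget_up (B : Base P S) (z₁ : P) (hz : ∀ k, ¬ k < z₁)
    {G : Type} [Fintype G] (mem : G → P → A × (I → S))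
    (hinj : Function.Injective (fun g => mem g z₁)) (D : G → Finset I)
    (R M d : ℕ) (hd : ∀ g, (D g).card ≤ d)
    (agree : ∀ g i y, y ∉ D g → (mem g i).2 y = (mem g z₁).2 y)
    (hole : ∀ g i y t z, (mem g i).2 y ≠ B.tile t z)
    (nb : ∀ g i, (mem g i).1 ≠ ⊥ ∨ ∃ y ∈ D g, (mem g i).2 y ≠ ⊥)
    (room : ∀ g, Fintype.card P + R ≤ (Finset.univ.filter (fun y => y ∉ D g ∧
      ∀ σ a, (mem g z₁).2 y ≤ B.tile (B.f ((mem g z₁).2 y) σ true) a)).card)
    (hbig : Fintype.card A * ((Fintype.card I * Fintype.card S) ^ (d + Fintype.card P) *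
      (Fintype.card S) ^ (Fintype.card P * M + 1)) ≤ Nat.choose (R - Fintype.card P * M) M)
    (hpos : 0 < Nat.choose (R - Fintype.card P * M) M) :
    ∃ L : G → P → P → A × (I → S),
      (∀ g j, IsMain B j true (L g j)) ∧ (∀ j, Function.Injective (fun g => L g j)) ∧
      (∀ g j j' i, j ≠ z₁ → j' ≠ z₁ → (L g j i ≤ L g j' i ↔ j ≤ j')) ∧
      (∀ g j i, j ≠ z₁ → (mem g i ≤ L g j i ↔ z₁ ≤ j)) ∧
      (∀ g j i, j ≠ z₁ → (L g j i ≤ mem g i ↔ j ≤ z₁)) := by
  classical
  have hemb : ∀ g, ∃ nN : P → I, Function.Injective nN ∧ (∀ k, nN k ∉ D g) ∧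
      (∀ k, ∀ σ a, (mem g z₁).2 (nN k) ≤ B.tile (B.f ((mem g z₁).2 (nN k)) σ true) a) := by
    intro g
    set F := (Finset.univ.filter (fun y => y ∉ D g ∧
      ∀ σ a, (mem g z₁).2 y ≤ B.tile (B.f ((mem g z₁).2 y) σ true) a)) with hF
    have hc : Fintype.card P ≤ Fintype.card F := by
      rw [Fintype.card_coe]
      exact le_trans (Nat.le_add_right _ _) (room g)
    obtain ⟨e⟩ := Function.Embedding.nonempty_of_card_le hc
    refine ⟨fun k => (e k : I), ?_, ?_, ?_⟩
    · intro k k' h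
      exact e.injective (Subtype.ext h)
    · intro k
      have := (e k).2
      simp only [hF, Finset.mem_filter] at this
      exact this.2.1
    · intro k
      have := (e k).2
      simp only [hF, Finset.mem_filter] at this
      exact this.2.2
  choose nN h1 h2 h3 using hemb
  have hR : ∀ g, R ≤ (roomSet B ((mem g z₁).2) (D g) (nN g)).card := by
    intro g
    have hsub : (Finset.univ.filter (fun y => y ∉ D g ∧
      ∀ σ a, (mem g z₁).2 y ≤ B.tile (B.f ((mem g z₁).2 y) σ true) a)) \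
        (Finset.univ.image (nN g)) ⊆ roomSet B ((mem g z₁).2) (D g) (nN g) := by
      intro y hy
      simp only [Finset.mem_sdiff, Finset.mem_filter, Finset.mem_univ, true_and,
        Finset.mem_image, not_exists] at hy
      rw [mem_roomSet]
      exact ⟨hy.1.1, fun k e => hy.2 k e.symm, hy.1.2⟩
    refine le_trans ?_ (Finset.card_le_card hsub)
    have h4 := Finset.le_card_sdiff (Finset.univ.image (nN g)) (Finset.univ.filter (fun y => y ∉ D g ∧
      ∀ σ a, (mem g z₁).2 y ≤ B.tile (B.f ((mem g z₁).2 y) σ true) a))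
    have h5 : (Finset.univ.image (nN g)).card ≤ Fintype.card P := by
      refine Finset.card_image_le.trans ?_
      simp
    have h6 := room g
    omega
  obtain ⟨Y, hY, hYi⟩ := exists_marks B z₁ (fun g => (mem g z₁).1) (fun g => (mem g z₁).2) D nN
    hinj (fun g y t z => hole g z₁ y t z) h1 h2 h3 R M d hd hR hbig hpos
  have hgood : ∀ g, Good B ((mem g z₁).2) (D g) (nN g) (Y g) := fun g =>
    good_of B _ _ _ _ (fun y t z => hole g z₁ y t z) (h1 g) (h2 g) (h3 g) (hY g)
  refine ⟨fun g => gln A B z₁ ((mem g z₁).2) (D g) (nN g) (Y g), ?_, ?_, ?_, ?_, ?_⟩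
  · intro g j
    exact gln_isMain (hgood g) j
  · intro j g g' e
    exact hYi j (congrFun e z₁)
  · intro g j j' i hj hj'
    by_cases hjj : j = j'
    · subst hjj
      simp
    · constructor
      · intro hle
        by_contra hcon
        exact gln_not_le (hgood g) j j' i i hjj (fun h => hcon h.le) hle
      · intro hle
        exact gln_mono (hgood g) j j' i i (lt_of_le_of_ne hle hjj)
  · intro g j i hj
    constructor
    · intro hle
      by_contra hcon
      exact not_mem_le_gln (hgood g) _ (nb g i) j i (fun h => hcon h.le) hle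
    · intro hle
      exact mem_le_gln (hgood g) _ (agree g i) j i (lt_of_le_of_ne hle (Ne.symm hj))
  · intro g j i hj
    constructor
    · intro hle
      exact absurd hle (not_gln_le_mem (hgood g) _ (agree g i) j i)
    · intro hle
      exact absurd (lt_of_le_of_ne hle hj) (hz j)

open Classical in
/-- The gadgets for groups having many down-rooms. -/
theorem gadget_dn (B : Base P S) (z₁ : P) (hz : ∀ k, ¬ z₁ < k)
    {G : Type} [Fintype G] (mem : G → P → A × (I → S))
    (hinj : Function.Injective (fun g => mem g z₁)) (D : G → Finset I)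
    (R M d : ℕ) (hd : ∀ g, (D g).card ≤ d)
    (agree : ∀ g i y, y ∉ D g → (mem g i).2 y = (mem g z₁).2 y)
    (hole : ∀ g i y t z, (mem g i).2 y ≠ B.tile t z)
    (nb : ∀ g i, (mem g i).1 ≠ ⊤ ∨ ∃ y ∈ D g, (mem g i).2 y ≠ ⊤)
    (room : ∀ g, Fintype.card P + R ≤ (Finset.univ.filter (fun y => y ∉ D g ∧
      ∀ σ a, B.tile (B.f ((mem g z₁).2 y) σ false) a ≤ (mem g z₁).2 y)).card)
    (hbig : Fintype.card A * ((Fintype.card I * Fintype.card S) ^ (d + Fintype.card P) *
      (Fintype.card S) ^ (Fintype.card P * M + 1)) ≤ Nat.choose (R - Fintype.card P * M) M)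
    (hpos : 0 < Nat.choose (R - Fintype.card P * M) M) :
    ∃ L : G → P → P → A × (I → S),
      (∀ g j, IsMain B j false (L g j)) ∧ (∀ j, Function.Injective (fun g => L g j)) ∧
      (∀ g j j' i, j ≠ z₁ → j' ≠ z₁ → (L g j i ≤ L g j' i ↔ j ≤ j')) ∧
      (∀ g j i, j ≠ z₁ → (L g j i ≤ mem g i ↔ j ≤ z₁)) ∧
      (∀ g j i, j ≠ z₁ → (mem g i ≤ L g j i ↔ z₁ ≤ j)) := by
  obtain ⟨L, h1, h2, h3, h4, h5⟩ := @gadget_up Pᵒᵈ Sᵒᵈ Aᵒᵈ I _ _ _ _ _ _ _ _ _ _ B.dual z₁ hz
    G _ mem hinj D R M d hd agree hole nb room hbig hpos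
  refine ⟨L, ?_, h2, ?_, h4, h5⟩
  · intro g j
    obtain ⟨a, c, y, t, k1, k2, k3, k4⟩ := h1 g j
    refine ⟨a, c, y, t, k1, k2, ?_, k4⟩
    have : (!(B.side t)) = true := k3
    simpa using this
  · intro g j j' i hj hj'
    exact h3 g j' j i hj' hj

end pack

end Pool.Agent.H57.Lonc
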