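import Pool.Agent.H57.Lonc.Pack
import Pool.Agent.H57.Lonc.Gray
import Pool.Agent.H57.Lonc.Lines
import Mathlib.Data.Set.Card
import Mathlib.Data.Fintype.Sets

set_option autoImplicit false

namespace Pool.Agent.H57.Lonc

section count

variable {P S A I : Type} [PartialOrder P] [PartialOrder S] [BoundedOrder S]

theorem card_nonholes [Fintype P] [Nonempty I] [DecidableEq I] (B : Base P S)
    [Fintype {x : A × (I → S) // ¬ Hole B x}]
    [Fintype {l : P → A × (I → S) // ∃ x, ¬ Hole B x ∧ l = lineOf B x}] :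
    Fintype.card {x : A × (I → S) // ¬ Hole B x} =
      Fintype.card {l : P → A × (I → S) // ∃ x, ¬ Hole B x ∧ l = lineOf B x} *
        Fintype.card P := by
  rw [← Fintype.card_prod]
  symm
  let F : {l : P → A × (I → S) // ∃ x, ¬ Hole B x ∧ l = lineOf B x} × P →
      {x : A × (I → S) // ¬ Hole B x} := fun u => ⟨u.1.1 u.2, by
        obtain ⟨⟨l, x, hx, rfl⟩, z⟩ := u
        exact lineOf_not_hole B x hx z⟩
  apply Fintype.card_of_bijective (f := F)
  constructor
  · rintro ⟨⟨l, x, hx, rfl⟩, z⟩ ⟨⟨l', x', hx', rfl⟩, z'⟩ h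
    have h1 : lineOf B x z = lineOf B x' z' := congrArg Subtype.val h
    have h2 : lineOf B x = lineOf B x' := by
      rw [← lineOf_lineOf B x hx z, h1, lineOf_lineOf B x' hx' z']
    have h3 : z = z' := by
      apply lineOf_inj B x hx
      rw [h1, h2]
    exact Prod.ext (Subtype.ext h2) h3
  · rintro ⟨x, hx⟩
    obtain ⟨z, hz⟩ := lineOf_self B x hx
    exact ⟨(⟨lineOf B x, x, hx, rfl⟩, z), Subtype.ext hz⟩

theorem dvd_holes [Fintype P] [Fintype S] [Fintype A] [Fintype I] [Nonempty I] [DecidableEq I]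
    (B : Base P S) [Fintype {s : S // ∀ t z, s ≠ B.tile t z}]
    (hdvd : Fintype.card P ∣ Fintype.card (A × (I → S)) - 2)
    (h2 : 2 ≤ Fintype.card (A × (I → {s : S // ∀ t z, s ≠ B.tile t z}))) :
    Fintype.card P ∣ Fintype.card (A × (I → {s : S // ∀ t z, s ≠ B.tile t z})) - 2 := by
  classical
  have h1 : Fintype.card (A × (I → S)) = Fintype.card {x : A × (I → S) // Hole B x} +
      Fintype.card {x : A × (I → S) // ¬ Hole B x} := by
    rw [← Fintype.card_sum]
    exact (Fintype.card_congr (Equiv.sumCompl (fun x : A × (I → S) => Hole B x))).symm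
  have h3 : Fintype.card {x : A × (I → S) // Hole B x} =
      Fintype.card (A × (I → {s : S // ∀ t z, s ≠ B.tile t z})) := by
    apply Fintype.card_congr
    exact
      { toFun := fun x => (x.1.1, fun y => ⟨x.1.2 y, fun t z => x.2 y t z⟩)
        invFun := fun x => ⟨(x.1, fun y => (x.2 y).1), fun y t z => (x.2 y).2 t z⟩
        left_inv := fun x => rfl
        right_inv := fun x => rfl }
  have h4 := card_nonholes (A := A) (I := I) B
  rw [h1, h3, h4] at hdvd
  have h5 : Fintype.card (A × (I → {s : S // ∀ t z, s ≠ B.tile t z})) +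
      Fintype.card {l : P → A × (I → S) // ∃ x, ¬ Hole B x ∧ l = lineOf B x} * Fintype.card P
      - 2 = (Fintype.card (A × (I → {s : S // ∀ t z, s ≠ B.tile t z})) - 2) +
      Fintype.card {l : P → A × (I → S) // ∃ x, ¬ Hole B x ∧ l = lineOf B x} * Fintype.card P := by
    omega
  rw [h5] at hdvd
  exact (Nat.dvd_add_left (Dvd.intro_left _ rfl)).1 hdvd

end count

/-- The product space can be tiled. -/
theorem tiled_product {P S A : Type} [PartialOrder P] [PartialOrder S] [BoundedOrder S]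
    [PartialOrder A] [BoundedOrder A] [Fintype P] [Fintype S] [Fintype A] [Nonempty P]
    (B : Base P S) (E : ℕ) (hE : 0 < E)
    (hdvd : Fintype.card P ∣ Fintype.card (A × (Fin E → S)) - 2)
    (R M : ℕ) (hER : (4 * Fintype.card P + 2) + 2 * (Fintype.card P + R) ≤ E)
    (hbig : Fintype.card A * ((E * Fintype.card S) ^ ((4 * Fintype.card P + 2) + Fintype.card P) *
      (Fintype.card S) ^ (Fintype.card P * M + 1)) ≤ Nat.choose (R - Fintype.card P * M) M)
    (hpos : 0 < Nat.choose (R - Fintype.card P * M) M) :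
    Tiled P (A × (Fin E → S)) := by
  classical
  have : Nonempty (Fin E) := ⟨⟨0, hE⟩⟩
  obtain ⟨p0⟩ := ‹Nonempty P›
  obtain ⟨z₁, hz₁⟩ : ∃ z₁ : P, ∀ k, ¬ k < z₁ := by
    obtain ⟨z, -, hz⟩ := (wellFounded_lt (α := P)).has_min Set.univ ⟨p0, trivial⟩
    exact ⟨z, fun k hk => hz k trivial hk⟩
  obtain ⟨z₂, hz₂⟩ : ∃ z₂ : P, ∀ k, ¬ z₂ < k := by
    obtain ⟨z, -, hz⟩ := (wellFounded_gt (α := P)).has_min Set.univ ⟨p0, trivial⟩
    exact ⟨z, fun k hk => hz k trivial hk⟩
  let N0 := {s : S // ∀ t z, s ≠ B.tile t z}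
  let b0 : N0 := ⟨⊥, fun t z e => B.ne_bot t z e.symm⟩
  let t0 : N0 := ⟨⊤, fun t z e => B.ne_top t z e.symm⟩
  have hS : (⊥ : S) ≠ ⊤ := by
    intro h
    have h1 : B.tile (B.f ⊥ none true) p0 ≤ ⊥ := by rw [h]; exact le_top
    exact B.ne_bot _ _ (le_bot_iff.1 h1)
  let xb : A × (Fin E → N0) := (⊥, fun _ => b0)
  let xt : A × (Fin E → N0) := (⊤, fun _ => t0)
  have hne : xb ≠ xt := by
    intro h
    have h1 := congrFun (congrArg Prod.snd h) ⟨0, hE⟩
    exact hS (congrArg Subtype.val h1)
  have hc2 : 2 ≤ Fintype.card (A × (Fin E → N0)) := by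
    have : Nontrivial (A × (Fin E → N0)) := ⟨xb, xt, hne⟩
    exact Fintype.one_lt_card
  have hd := dvd_holes (A := A) B hdvd hc2
  obtain ⟨K, mem0, D0, g1, g2, g3, g4, g5⟩ := grouping A N0 E xb xt hne P _ rfl hd
  let emb : A × (Fin E → N0) → A × (Fin E → S) := fun x => (x.1, fun y => (x.2 y).1)
  have embInj : Function.Injective emb := by
    intro x x' h
    refine Prod.ext (Prod.mk.inj h).1 ?_
    funext y
    exact Subtype.ext (congrFun (Prod.mk.inj h).2 y)
  let mem : Fin K → P → A × (Fin E → S) := fun g i => emb (mem0 g i)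
  have hhole : ∀ g i, Hole B (mem g i) := fun g i y t z => ((mem0 g i).2 y).2 t z
  have memNe : ∀ g i, mem g i ≠ ⊥ ∧ mem g i ≠ ⊤ := by
    intro g i
    constructor
    · intro h
      exact (g5 g i).1 (embInj h)
    · intro h
      exact (g5 g i).2 (embInj h)
  have memInj : ∀ g g' i i', mem g i = mem g' i' → g = g' ∧ i = i' := by
    intro g g' i i' h
    exact g4 g g' i i' (embInj h)
  have memAll : ∀ x, x ≠ ⊥ → x ≠ ⊤ → Hole B x → ∃ g i, mem g i = x := by
    intro x hx1 hx2 hx
    let x0 : A × (Fin E → N0) := (x.1, fun y => ⟨x.2 y, fun t z => hx y t z⟩)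
    have hx0 : emb x0 = x := rfl
    have k1 : x0 ≠ xb := fun h => hx1 (congrArg emb h)
    have k2 : x0 ≠ xt := fun h => hx2 (congrArg emb h)
    obtain ⟨g, i, h⟩ := g3 x0 k1 k2
    refine ⟨g, i, ?_⟩
    simp only [mem, h, hx0]
  have agree0 : ∀ g i j y, y ∉ D0 g → (mem g i).2 y = (mem g j).2 y := by
    intro g i j y hy
    exact congrArg Subtype.val (g2 g i j y hy)
  have hDex : ∀ g, ∃ D : Finset (Fin E), D0 g ⊆ D ∧ D.card ≤ 4 * Fintype.card P + 2 ∧
      (∀ i, (mem g i).1 ≠ ⊥ ∨ ∃ y ∈ D, (mem g i).2 y ≠ ⊥) ∧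
      (∀ i, (mem g i).1 ≠ ⊤ ∨ ∃ y ∈ D, (mem g i).2 y ≠ ⊤) := by
    intro g
    have key : ∀ c : S, ∃ D : Finset (Fin E), D.card ≤ 1 ∧
        ((∀ i, ∃ y ∈ D, (mem g i).2 y ≠ c) ∨ ∀ i y, y ∉ D0 g → (mem g i).2 y = c) := by
      intro c
      by_cases h : ∃ y, y ∉ D0 g ∧ (mem g p0).2 y ≠ c
      · obtain ⟨y, hy1, hy2⟩ := h
        refine ⟨{y}, by simp, Or.inl ?_⟩
        intro i
        refine ⟨y, by simp, ?_⟩
        rw [agree0 g i p0 y hy1]
        exact hy2
      · refine ⟨∅, by simp, Or.inr ?_⟩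
        intro i y hy
        rw [agree0 g i p0 y hy]
        by_contra hcon
        exact h ⟨y, hy, hcon⟩
    obtain ⟨D1, hD1, hD1'⟩ := key ⊥
    obtain ⟨D2, hD2, hD2'⟩ := key ⊤
    refine ⟨D0 g ∪ D1 ∪ D2, ?_, ?_, ?_, ?_⟩
    · exact Finset.subset_union_left.trans Finset.subset_union_left
    · have h1 := Finset.card_union_le (D0 g ∪ D1) D2
      have h2 := Finset.card_union_le (D0 g) D1
      have h3 := g1 g
      omega
    · intro i
      rcases hD1' with h | h
      · obtain ⟨y, hy, hy'⟩ := h i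
        exact Or.inr ⟨y, by simp [hy], hy'⟩
      · by_contra hcon
        rw [not_or, not_not] at hcon
        apply (memNe g i).1
        refine Prod.ext hcon.1 ?_
        funext y
        by_cases hy : y ∈ D0 g
        · by_contra hcon2
          exact hcon.2 ⟨y, by simp [hy], hcon2⟩
        · exact h i y hy
    · intro i
      rcases hD2' with h | h
      · obtain ⟨y, hy, hy'⟩ := h i
        exact Or.inr ⟨y, by simp [hy], hy'⟩
      · by_contra hcon
        rw [not_or, not_not] at hcon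
        apply (memNe g i).2
        refine Prod.ext hcon.1 ?_
        funext y
        by_cases hy : y ∈ D0 g
        · by_contra hcon2
          exact hcon.2 ⟨y, by simp [hy], hcon2⟩
        · exact h i y hy
  choose D hD0 hDc hDb hDt using hDex
  have agree : ∀ g i j y, y ∉ D g → (mem g i).2 y = (mem g j).2 y :=
    fun g i j y hy => agree0 g i j y (fun h => hy (hD0 g h))
  let Up : Fin K → Prop := fun g => Fintype.card P + R ≤ (Finset.univ.filter (fun y => y ∉ D g ∧
      ∀ σ a, (mem g z₁).2 y ≤ B.tile (B.f ((mem g z₁).2 y) σ true) a)).card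
  have hDn : ∀ g, ¬ Up g → Fintype.card P + R ≤ (Finset.univ.filter (fun y => y ∉ D g ∧
      ∀ σ a, B.tile (B.f ((mem g z₂).2 y) σ false) a ≤ (mem g z₂).2 y)).card := by
    intro g hg
    simp only [Up, not_le] at hg
    have hcov : (Finset.univ : Finset (Fin E)) ⊆ D g ∪
        (Finset.univ.filter (fun y => y ∉ D g ∧
          ∀ σ a, (mem g z₁).2 y ≤ B.tile (B.f ((mem g z₁).2 y) σ true) a)) ∪
        (Finset.univ.filter (fun y => y ∉ D g ∧
          ∀ σ a, B.tile (B.f ((mem g z₂).2 y) σ false) a ≤ (mem g z₂).2 y)) := by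
      intro y _
      by_cases hy : y ∈ D g
      · simp [hy]
      · have e := agree g z₂ z₁ y hy
        rcases B.room ((mem g z₁).2 y) with h | h
        · apply Finset.mem_union_left
          apply Finset.mem_union_right
          rw [Finset.mem_filter]
          exact ⟨Finset.mem_univ _, hy, h⟩
        · apply Finset.mem_union_right
          rw [Finset.mem_filter]
          refine ⟨Finset.mem_univ _, hy, ?_⟩
          rw [e]
          exact h
    have h1 := Finset.card_le_card hcov
    have h2 := Finset.card_union_le (D g ∪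
        (Finset.univ.filter (fun y => y ∉ D g ∧
          ∀ σ a, (mem g z₁).2 y ≤ B.tile (B.f ((mem g z₁).2 y) σ true) a)))
        (Finset.univ.filter (fun y => y ∉ D g ∧
          ∀ σ a, B.tile (B.f ((mem g z₂).2 y) σ false) a ≤ (mem g z₂).2 y))
    have h3 := Finset.card_union_le (D g)
        (Finset.univ.filter (fun y => y ∉ D g ∧
          ∀ σ a, (mem g z₁).2 y ≤ B.tile (B.f ((mem g z₁).2 y) σ true) a))
    have h4 := hDc g
    rw [Finset.card_univ, Fintype.card_fin] at h1
    omega
  have hbig' : Fintype.card A * ((Fintype.card (Fin E) * Fintype.card S) ^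
      ((4 * Fintype.card P + 2) + Fintype.card P) *
      (Fintype.card S) ^ (Fintype.card P * M + 1)) ≤ Nat.choose (R - Fintype.card P * M) M := by
    rw [Fintype.card_fin]
    exact hbig
  obtain ⟨L1, a1, a2, a3, a4, a5⟩ := gadget_up B z₁ hz₁ (G := {g : Fin K // Up g})
    (fun g => mem g.1) (fun g g' h => Subtype.ext (memInj _ _ _ _ h).1) (fun g => D g.1) R M
    (4 * Fintype.card P + 2) (fun g => hDc g.1) (fun g i y hy => agree g.1 i z₁ y hy)
    (fun g i => hhole g.1 i) (fun g i => hDb g.1 i) (fun g => g.2) hbig' hpos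
  obtain ⟨L2, c1, c2, c3, c4, c5⟩ := gadget_dn B z₂ hz₂ (G := {g : Fin K // ¬ Up g})
    (fun g => mem g.1) (fun g g' h => Subtype.ext (memInj _ _ _ _ h).1) (fun g => D g.1) R M
    (4 * Fintype.card P + 2) (fun g => hDc g.1) (fun g i y hy => agree g.1 i z₂ y hy)
    (fun g i => hhole g.1 i) (fun g i => hDt g.1 i) (fun g => hDn g.1 g.2) hbig' hpos
  refine assemble B (Fin K) mem (fun g => if Up g then z₁ else z₂)
    (fun g => if h : Up g then L1 ⟨g, h⟩ else L2 ⟨g, h⟩) hhole memAll memInj memNe ?_ ?_ ?_ ?_ ?_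
  · intro g j
    by_cases hg : Up g
    · exact ⟨true, by simp only [dif_pos hg]; exact a1 _ j⟩
    · exact ⟨false, by simp only [dif_neg hg]; exact c1 _ j⟩
  · intro g g' j h
    by_cases hg : Up g <;> by_cases hg' : Up g'
    · simp only [dif_pos hg, dif_pos hg'] at h
      exact congrArg Subtype.val (a2 j h)
    · exfalso
      simp only [dif_pos hg, dif_neg hg'] at h
      have h1 := a1 ⟨g, hg⟩ j
      rw [h] at h1
      have := (main_unique B j j true false _ h1 (c1 ⟨g', hg'⟩ j)).2
      cases this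
    · exfalso
      simp only [dif_neg hg, dif_pos hg'] at h
      have h1 := c1 ⟨g, hg⟩ j
      rw [h] at h1
      have := (main_unique B j j false true _ h1 (a1 ⟨g', hg'⟩ j)).2
      cases this
    · simp only [dif_neg hg, dif_neg hg'] at h
      exact congrArg Subtype.val (c2 j h)
  · intro g j j' i hj hj'
    by_cases hg : Up g
    · simp only [if_pos hg] at hj hj'
      simp only [dif_pos hg]
      exact a3 _ j j' i hj hj'
    · simp only [if_neg hg] at hj hj'
      simp only [dif_neg hg]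
      exact c3 _ j j' i hj hj'
  · intro g j i hj
    by_cases hg : Up g
    · simp only [if_pos hg] at hj
      simp only [dif_pos hg, if_pos hg]
      exact a4 ⟨g, hg⟩ j i hj
    · simp only [if_neg hg] at hj
      simp only [dif_neg hg, if_neg hg]
      exact c5 ⟨g, hg⟩ j i hj
  · intro g j i hj
    by_cases hg : Up g
    · simp only [if_pos hg] at hj
      simp only [dif_pos hg, if_pos hg]
      exact a5 ⟨g, hg⟩ j i hj
    · simp only [if_neg hg] at hj
      simp only [dif_neg hg, if_neg hg]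
      exact c4 ⟨g, hg⟩ j i hj

end Pool.Agent.H57.Lonc
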